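import Pool.Agent.H3.K1.DmA

/-!
# Capacity of a doubly stochastic matrix is at least one

PROOF. For each row `i`: `∑_j a i j * x j ≥ ∏_j (x j)^(a i j)` (weighted AM-GM,
`Real.geom_mean_le_arith_mean_weighted`, weights `a i j`, sum `1`). Multiply over `i`:
`∏_i ∏_j (x j)^(a i j) = ∏_j (x j)^(∑_i a i j) = ∏_j x j`.
-/

namespace Pool.Agent.H3.K1

open Finset

variable {n : Type*} [Fintype n] [DecidableEq n]

theorem cap_base (a : Matrix n n ℝ) (ha : ∀ i j, 0 ≤ a i j) (hr : ∀ i, ∑ j, a i j = 1)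
    (hc : ∀ j, ∑ i, a i j = 1) (x : n → ℝ) (hx : ∀ j, 0 < x j) :
    ∏ j, x j ≤ ∏ i, ∑ j, a i j * x j := by
  have h1 : ∏ j, x j = ∏ i, ∏ j, x j ^ a i j := by
    rw [Finset.prod_comm]
    refine Finset.prod_congr rfl fun j _ => ?_
    rw [← Real.rpow_sum_of_pos (hx j), hc j, Real.rpow_one]
  rw [h1]
  refine Finset.prod_le_prod (fun i _ => Finset.prod_nonneg fun j _ =>
    Real.rpow_nonneg (hx j).le _) fun i _ => ?_
  exact Real.geom_mean_le_arith_mean_weighted Finset.univ (fun j => a i j) x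
    (fun j _ => ha i j) (hr i) (fun j _ => (hx j).le)

end Pool.Agent.H3.K1
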