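import Pool.Agent.H3.K1.RR
import Pool.Agent.H3.K1.CapA

/-!
# The capacity induction, lower bound for positive doubly stochastic matrices

PROOF. For `S : Finset n` put `p_S(x) = Dm S a (fun i => ∑ j ∈ S, x j * a i j) / |S|!`.
CLAIM (downward induction on `|S|`, `1 ≤ |S|`): for all `x > 0`,
`exp (-(card n - |S|)) * ∏_{j∈S} x j ≤ p_S(x)`. `S = univ`: `Dm_univ`, `cap_base`. STEP from `S` to
`S' = S.erase k`, `m = |S| ≥ 2`: let `x > 0`, `v i = ∑ j ∈ S', x j * a i j > 0`,
`β = Dm S' a v / Dm S a v > 0`, `t = 1/((m-1) β)`. The claim for `S` at `(x, x k := t)` and `Dm_le`: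
`exp(-(n-m)) * t * ∏_{S'} x ≤ Dm S a (v + t a_k)/m! ≤ (Dm S a v/m!) (1 + t β)^m
= (Dm S a v/m!) (m/(m-1))^m`. Multiply by `(m-1) β`:
`exp(-(n-m)) ∏_{S'} x ≤ (Dm S' a v/m!) (m-1) (m/(m-1))^m = p_{S'}(x) * (m/(m-1))^(m-1)`
(because `(m-1)!/m! * (m-1) * (m/(m-1)) = 1`), and `(m/(m-1))^(m-1) = (1 + 1/(m-1))^(m-1) ≤ exp 1`.
END: `S = {k}`: `p_S(x) = Dm {k} a (x k * a_k) = x k * a.permanent` (`Dm_smul`, and `Dm {k} a (a_k)
= a.permanent` by definition). So `exp(-(n-1)) ≤ a.permanent`.
-/

namespace Pool.Agent.H3.K1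

open Finset

variable {n : Type*} [Fintype n] [DecidableEq n]

private theorem capb_claim (a : Matrix n n ℝ) (ha : ∀ i j, 0 < a i j)
    (hr : ∀ i, ∑ j, a i j = 1) (hc : ∀ j, ∑ i, a i j = 1) :
    ∀ (d : ℕ) (S : Finset n), S.card + d = Fintype.card n → S.Nonempty →
      ∀ x : n → ℝ, (∀ j, 0 < x j) →
        Real.exp (-(d : ℝ)) * ∏ j ∈ S, x j ≤
          Dm S a (fun i => ∑ j ∈ S, x j * a i j) / (S.card.factorial : ℝ) := by
  intro d
  induction d with
  | zero =>
    intro S hS _ x hx
    have hSu : S = Finset.univ := by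
      rw [add_zero] at hS
      exact Finset.eq_univ_of_card S hS
    subst hSu
    rw [Dm_univ, Finset.card_univ]
    have h1 : ((Fintype.card n).factorial : ℝ) ≠ 0 := by positivity
    rw [mul_div_cancel_left₀ _ h1]
    simp only [Nat.cast_zero, neg_zero, Real.exp_zero, one_mul]
    refine (cap_base a (fun i j => (ha i j).le) hr hc x hx).trans (le_of_eq ?_)
    refine Finset.prod_congr rfl fun i _ => Finset.sum_congr rfl fun j _ => mul_comm _ _
  | succ d ih =>
    intro S' hS' hne x hx
    have hlt : S'.card < Fintype.card n := by omega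
    obtain ⟨k, hk⟩ : ∃ k, k ∉ S' := by
      by_contra hcon
      push Not at hcon
      have : S' = Finset.univ := Finset.eq_univ_iff_forall.2 hcon
      rw [this, Finset.card_univ] at hlt
      exact lt_irrefl _ hlt
    obtain ⟨S, hS⟩ : ∃ S, S = insert k S' := ⟨_, rfl⟩
    have hkS : k ∈ S := by rw [hS]; exact Finset.mem_insert_self k S'
    have herase : S.erase k = S' := by rw [hS]; exact Finset.erase_insert hk
    have hcard : S.card = S'.card + 1 := by rw [hS]; exact Finset.card_insert_of_notMem hk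
    obtain ⟨r, hrr⟩ : ∃ r : ℝ, r = (S'.card : ℝ) := ⟨_, rfl⟩
    have hr0 : 0 < r := by
      rw [hrr]
      exact_mod_cast Finset.card_pos.2 hne
    obtain ⟨v, hv⟩ : ∃ v : n → ℝ, v = fun i => ∑ j ∈ S', x j * a i j := ⟨_, rfl⟩
    have hvpos : ∀ i, 0 < v i := by
      intro i
      rw [hv]
      exact Finset.sum_pos (fun j _ => mul_pos (hx j) (ha i j)) hne
    have hD : 0 < Dm S a v := Dm_pos S a v ha hvpos
    have hD' : 0 < Dm S' a v := Dm_pos S' a v ha hvpos
    obtain ⟨β, hβ⟩ : ∃ β : ℝ, β = Dm S' a v / Dm S a v := ⟨_, rfl⟩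
    have hβ0 : 0 < β := by rw [hβ]; positivity
    obtain ⟨t, ht⟩ : ∃ t : ℝ, t = 1 / (r * β) := ⟨_, rfl⟩
    have ht0 : 0 < t := by rw [ht]; positivity
    have h1 := ih S (by omega) ⟨k, hkS⟩ (Function.update x k t) (by
      intro j
      by_cases hj : j = k
      · subst hj
        rw [Function.update_self]
        exact ht0
      · rw [Function.update_of_ne hj]
        exact hx j)
    have h2 : ∏ j ∈ S, Function.update x k t j = t * ∏ j ∈ S', x j := by
      rw [hS, Finset.prod_insert hk, Function.update_self]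
      congr 1
      refine Finset.prod_congr rfl fun j hj => ?_
      rw [Function.update_of_ne]
      rintro rfl
      exact hk hj
    have h3 : (fun i => ∑ j ∈ S, Function.update x k t j * a i j) = fun i => v i + t * a i k := by
      funext i
      rw [hS, Finset.sum_insert hk, Function.update_self, add_comm, hv]
      congr 1
      refine Finset.sum_congr rfl fun j hj => ?_
      rw [Function.update_of_ne]
      rintro rfl
      exact hk hj
    rw [h2, h3] at h1
    have h4 := Dm_le a ha S v hvpos k hkS t ht0.le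
    rw [herase, ← hβ, hcard] at h4
    have htb : 1 + t * β = 1 + 1 / r := by
      rw [ht]
      field_simp
    rw [htb] at h4
    have hfac : (0 : ℝ) < (S'.card.factorial : ℝ) := by positivity
    have hfac2 : ((S'.card + 1).factorial : ℝ) = (r + 1) * (S'.card.factorial : ℝ) := by
      rw [Nat.factorial_succ, hrr]
      push_cast
      ring
    rw [hcard, hfac2] at h1
    have h5 : Real.exp (-(d : ℝ)) * (t * ∏ j ∈ S', x j) ≤
        Dm S a v * (1 + 1 / r) ^ (S'.card + 1) / ((r + 1) * (S'.card.factorial : ℝ)) :=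
      h1.trans (div_le_div_of_nonneg_right h4 (by positivity))
    have h6 := mul_le_mul_of_nonneg_left h5 (show 0 ≤ r * β by positivity)
    have h7 : r * β * (Real.exp (-(d : ℝ)) * (t * ∏ j ∈ S', x j)) =
        Real.exp (-(d : ℝ)) * ∏ j ∈ S', x j := by
      rw [ht]
      field_simp
    have h8 : r * β * (Dm S a v * (1 + 1 / r) ^ (S'.card + 1) /
        ((r + 1) * (S'.card.factorial : ℝ))) =
        Dm S' a v / (S'.card.factorial : ℝ) * (1 + 1 / r) ^ S'.card := by
      rw [hβ, pow_succ]
      field_simp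
    rw [h7, h8] at h6
    have h9 : (1 + 1 / r) ^ S'.card ≤ Real.exp 1 := by
      have e1 : 1 + 1 / r ≤ Real.exp (1 / r) := by
        have := Real.add_one_le_exp (1 / r)
        linarith
      calc (1 + 1 / r) ^ S'.card ≤ Real.exp (1 / r) ^ S'.card :=
            pow_le_pow_left₀ (by positivity) e1 _
        _ = Real.exp ((S'.card : ℝ) * (1 / r)) := by rw [Real.exp_nat_mul]
        _ = Real.exp 1 := by
          congr 1
          rw [← hrr]
          field_simp
    have h10 : Real.exp (-(d : ℝ)) * ∏ j ∈ S', x j ≤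
        Dm S' a v / (S'.card.factorial : ℝ) * Real.exp 1 :=
      h6.trans (mul_le_mul_of_nonneg_left h9 (by positivity))
    have h11 : Real.exp (-((d + 1 : ℕ) : ℝ)) = Real.exp (-(d : ℝ)) * Real.exp (-1) := by
      rw [← Real.exp_add]
      congr 1
      push_cast
      ring
    rw [h11]
    have h12 := mul_le_mul_of_nonneg_right h10 (Real.exp_pos (-1)).le
    have h13 : Real.exp 1 * Real.exp (-1) = 1 := by
      rw [← Real.exp_add]
      simp
    calc Real.exp (-(d : ℝ)) * Real.exp (-1) * ∏ j ∈ S', x j =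
        Real.exp (-(d : ℝ)) * (∏ j ∈ S', x j) * Real.exp (-1) := by ring
      _ ≤ Dm S' a v / (S'.card.factorial : ℝ) * Real.exp 1 * Real.exp (-1) := h12
      _ = Dm S' a v / (S'.card.factorial : ℝ) := by rw [mul_assoc, h13, mul_one]
      _ = _ := by rw [hv]

theorem vdw_pos [Nonempty n] (a : Matrix n n ℝ) (ha : ∀ i j, 0 < a i j)
    (hr : ∀ i, ∑ j, a i j = 1) (hc : ∀ j, ∑ i, a i j = 1) :
    Real.exp (-(Fintype.card n : ℝ)) ≤ a.permanent := by
  obtain ⟨k⟩ := (inferInstance : Nonempty n)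
  have hn : 1 ≤ Fintype.card n := Fintype.card_pos_iff.2 ⟨k⟩
  obtain ⟨d, hd⟩ : ∃ d, 1 + d = Fintype.card n := ⟨Fintype.card n - 1, by omega⟩
  have h1 := capb_claim a ha hr hc d {k} (by rw [Finset.card_singleton, hd])
    (Finset.singleton_nonempty k) (fun _ => 1) (fun _ => one_pos)
  have h2 : Dm {k} a (fun i => ∑ j ∈ {k}, (1 : ℝ) * a i j) = a.permanent := by
    unfold Dm
    congr 1
    ext i j
    simp only [Matrix.of_apply, Finset.mem_singleton, Finset.sum_singleton, one_mul]
    by_cases hj : j = k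
    · rw [if_pos hj, hj]
    · rw [if_neg hj]
  rw [h2] at h1
  simp only [Finset.prod_const_one, mul_one, Finset.card_singleton, Nat.factorial_one,
    Nat.cast_one, div_one] at h1
  refine le_trans (Real.exp_le_exp.2 ?_) h1
  rw [← hd]
  push_cast
  linarith

end Pool.Agent.H3.K1
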