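import Pool.Agent.H3.K1.Col

/-!
# Few orientations are compatible with the frozen edges

PROOF. `a0` any end (`T` nonempty). The map `k ↦ (k a0, fun t : A => xor (k (inl t)) (k (inr (M t))))`
is injective on `Fro mu M A`: if two orientations have the same data then
`k (inr (M t)) = k' (inr (M t)) ↔ k (inl t) = k' (inl t)` for all `t` (for `t ∉ A` both are
negations), i.e. `h2` of `col_unique` with `s = M` (for `a = inr w` put `t = M.symm w`); `h1` holds
for orientations. So the number is at most `2 * 2^|A|`.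
-/

namespace Pool.Agent.H3.K1

open Finset

variable {T W : Type*} [Fintype T] [Fintype W] [DecidableEq T] [DecidableEq W]

theorem card_Fro_le [Nonempty T] (mu : T ⊕ W → T ⊕ W) (M : T ≃ W) (hc : Conn mu M)
    (A : Finset T) : (Fro mu M A).card ≤ 2 ^ (A.card + 1) := by
  classical
  obtain ⟨t0⟩ := ‹Nonempty T›
  have hcard : (Finset.univ : Finset (Bool × ({t // t ∈ A} → Bool))).card = 2 ^ (A.card + 1) := by
    rw [Finset.card_univ, Fintype.card_prod, Fintype.card_fun, Fintype.card_bool,
      Fintype.card_coe, pow_succ, mul_comm]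
  rw [← hcard]
  refine Finset.card_le_card_of_injOn (fun k : T ⊕ W → Bool => (k (Sum.inl t0),
    fun t : {t // t ∈ A} => xor (k (Sum.inl t.1)) (k (Sum.inr (M t.1))))) (fun k _ => by simp) ?_
  intro k hk k' hk' hkk
  rw [Finset.mem_coe, Fro, Finset.mem_filter, Adm, Finset.mem_filter] at hk hk'
  obtain ⟨⟨-, hk1⟩, hk2⟩ := hk
  obtain ⟨⟨-, hk1'⟩, hk2'⟩ := hk'
  have h0 := congrArg Prod.fst hkk
  have h3 := congrArg Prod.snd hkk
  simp only at h0 h3
  have key : ∀ t : T, (k (Sum.inr (M t)) = k' (Sum.inr (M t))) ↔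
      (k (Sum.inl t) = k' (Sum.inl t)) := by
    intro t
    by_cases ht : t ∈ A
    · have h4 := congrFun h3 ⟨t, ht⟩
      simp only at h4
      revert h4
      cases k (Sum.inr (M t)) <;> cases k' (Sum.inr (M t)) <;> cases k (Sum.inl t) <;>
        cases k' (Sum.inl t) <;> simp
    · rw [hk2 t ht, hk2' t ht]
      cases k (Sum.inl t) <;> cases k' (Sum.inl t) <;> simp
  refine col_unique mu M hc k k' ?_ ?_ (Sum.inl t0) h0
  · intro a
    rw [hk1 a, hk1' a]
    cases k a <;> cases k' a <;> simp
  · intro a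
    rcases a with t | w
    · exact key t
    · have h4 := key (M.symm w)
      rw [Equiv.apply_symm_apply] at h4
      exact h4.symm

end Pool.Agent.H3.K1
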