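import Pool.Agent.H3.K1.Defs

/-!
# A single cycle has exactly two orientations

PROOF. `g = fun a => hat s (mu a)`. By `Conn` every end is `g^[i] a0` or `mu (g^[i] a0)` (induction
on the walk; `g` is bijective of finite order on the finite type `T ⊕ W`, so negative powers are
powers; or work with `Equiv.Perm`, `g : Perm (T ⊕ W)`, integer powers `g^i`). The two kinds are
disjoint: `mu g^i mu = g^(-i)`, so `g^i a0 = mu (g^j a0)` gives `g^(i+j) a0 = mu a0`; if
`i + j = 2 l` then `g^l a0 = g^(-l) mu a0 = mu (g^l a0)`, a fixed point of `mu`; if `i + j = 2 l + 1`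
then `g^(l+1) a0 = mu (g^l a0)` so `y = mu (g^l a0)` satisfies `hat s y = g (g^l a0) = y`, but
`hat s` has no fixed point. Put `k a = b` if `a = g^i a0` for some `i`, and `!b` otherwise. Then
`k (mu a) = !k a` and `k (hat s a) = !k a`. Uniqueness: two such colourings agreeing at one end agree
along every walk.
-/

namespace Pool.Agent.H3.K1

open Finset

variable {T W : Type*} [Finite T] [Finite W]

private theorem col_hat_ne (s : T ≃ W) (a : T ⊕ W) : hat s a ≠ a := by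
  rcases a with t | w <;> simp

theorem exists_col (mu : T ⊕ W → T ⊕ W) (hinv : ∀ a, mu (mu a) = a) (hne : ∀ a, mu a ≠ a)
    (s : T ≃ W) (hc : Conn mu s) (a0 : T ⊕ W) (b : Bool) :
    ∃ k : T ⊕ W → Bool, (∀ a, k (mu a) = !k a) ∧ (∀ a, k (hat s a) = !k a) ∧ k a0 = b := by
  classical
  obtain ⟨M, hM⟩ : ∃ M : Equiv.Perm (T ⊕ W), ∀ a, M a = mu a := ⟨⟨mu, mu, hinv, hinv⟩, fun _ => rfl⟩
  obtain ⟨H, hH⟩ : ∃ H : Equiv.Perm (T ⊕ W), ∀ a, H a = hat s a :=
    ⟨⟨hat s, hat s, hat_hat s, hat_hat s⟩, fun _ => rfl⟩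
  have hMM : M * M = 1 := by
    ext a
    rw [Equiv.Perm.mul_apply, hM, hM, hinv]
    rfl
  have hHH : H * H = 1 := by
    ext a
    rw [Equiv.Perm.mul_apply, hH, hH, hat_hat]
    rfl
  have hMi : M⁻¹ = M := inv_eq_of_mul_eq_one_right hMM
  have hHi : H⁻¹ = H := inv_eq_of_mul_eq_one_right hHH
  obtain ⟨g, hg⟩ : ∃ g : Equiv.Perm (T ⊕ W), g = H * M := ⟨_, rfl⟩
  have hgi : g⁻¹ = M * H := by rw [hg, mul_inv_rev, hMi, hHi]
  have hconj : M * g * M⁻¹ = g⁻¹ := by
    rw [hgi, hMi, hg]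
    calc M * (H * M) * M = M * H * (M * M) := by group
      _ = M * H := by rw [hMM, mul_one]
  have hpow : ∀ j : ℤ, M * g ^ j = g ^ (-j) * M := by
    intro j
    have h1 : M * g ^ j * M⁻¹ = g ^ (-j) := by
      rw [← conj_zpow, hconj, inv_zpow, zpow_neg]
    rw [← h1]
    group
  have hs1 : ∀ i : ℤ, hat s ((g ^ i) a0) = M ((g ^ (i - 1)) a0) := by
    intro i
    rw [← hH, ← Equiv.Perm.mul_apply, ← Equiv.Perm.mul_apply]
    congr 1
    rw [zpow_sub_one, hgi, ← mul_assoc, hpow i]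
    have e1 : g ^ (-i) * M * (M * H) = g ^ (-i) * H := by
      calc g ^ (-i) * M * (M * H) = g ^ (-i) * (M * M) * H := by group
        _ = g ^ (-i) * H := by rw [hMM, mul_one]
    rw [e1]
    have e2 : H * g * H⁻¹ = g⁻¹ := by
      rw [hgi, hHi, hg]
      calc H * (H * M) * H = (H * H) * (M * H) := by group
        _ = M * H := by rw [hHH, one_mul]
    have e3 : H * g ^ i * H⁻¹ = g ^ (-i) := by
      rw [← conj_zpow, e2, inv_zpow, zpow_neg]
    rw [← e3]
    group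
  have hs2 : ∀ i : ℤ, hat s (M ((g ^ i) a0)) = (g ^ (1 + i)) a0 := by
    intro i
    rw [← hH, zpow_add, zpow_one, hg, Equiv.Perm.mul_apply, Equiv.Perm.mul_apply]
  have hcov : ∀ a, (∃ i : ℤ, a = (g ^ i) a0) ∨ ∃ i : ℤ, a = M ((g ^ i) a0) := by
    intro a
    have := hc a0 a
    induction this with
    | refl => exact Or.inl ⟨0, by simp⟩
    | tail _ hxy ih =>
      rcases hxy with h | h
      · rcases ih with ⟨i, hi⟩ | ⟨i, hi⟩
        · exact Or.inr ⟨i, by rw [h, hi, hM]⟩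
        · exact Or.inl ⟨i, by rw [h, hi, hM, hinv]⟩
      · rcases ih with ⟨i, hi⟩ | ⟨i, hi⟩
        · exact Or.inr ⟨i - 1, by rw [h, hi, hs1]⟩
        · exact Or.inl ⟨1 + i, by rw [h, hi, hs2]⟩
  have hdis : ∀ i j : ℤ, (g ^ i) a0 ≠ M ((g ^ j) a0) := by
    intro i j hij
    have h1 : (g ^ (i + j)) a0 = M a0 := by
      have h2 : M ((g ^ j) a0) = (g ^ (-j)) (M a0) := by
        rw [← Equiv.Perm.mul_apply, hpow, Equiv.Perm.mul_apply]
      rw [h2] at hij
      have h3 : (g ^ j) ((g ^ i) a0) = (g ^ j) ((g ^ (-j)) (M a0)) := by rw [hij]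
      rw [← Equiv.Perm.mul_apply, ← Equiv.Perm.mul_apply, ← zpow_add, ← zpow_add] at h3
      rw [add_comm i j, h3]
      simp
    have hl : ∀ l r : ℤ, i + j = l + r → (g ^ r) a0 = M ((g ^ l) a0) := by
      intro l r hlr
      have h2 : M ((g ^ l) a0) = (g ^ (-l)) (M a0) := by
        rw [← Equiv.Perm.mul_apply, hpow, Equiv.Perm.mul_apply]
      rw [h2, ← h1, ← Equiv.Perm.mul_apply, ← zpow_add]
      congr 2
      omega
    rcases Int.even_or_odd (i + j) with ⟨l, hl'⟩ | ⟨l, hl'⟩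
    · have h2 := hl l l hl'
      rw [hM] at h2
      exact hne _ h2.symm
    · have h2 := hl l (1 + l) (by omega)
      have h3 : (g ^ (1 + l)) a0 = hat s (M ((g ^ l) a0)) := by
        rw [← hH, zpow_add, zpow_one, hg, Equiv.Perm.mul_apply, Equiv.Perm.mul_apply]
      rw [h2] at h3
      exact col_hat_ne s _ h3.symm
  refine ⟨fun a => if ∃ i : ℤ, a = (g ^ i) a0 then b else !b, ?_, ?_, ?_⟩
  · intro a
    rcases hcov a with ⟨i, hi⟩ | ⟨i, hi⟩
    · have h1 : ∃ i : ℤ, a = (g ^ i) a0 := ⟨i, hi⟩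
      have h2 : ¬ ∃ j : ℤ, mu a = (g ^ j) a0 := by
        rintro ⟨j, hj⟩
        exact hdis j i (by rw [← hj, hi, hM])
      simp only [if_pos h1, if_neg h2]
    · have h1 : ¬ ∃ j : ℤ, a = (g ^ j) a0 := by
        rintro ⟨j, hj⟩
        exact hdis j i (by rw [← hj, hi])
      have h2 : ∃ j : ℤ, mu a = (g ^ j) a0 := ⟨i, by rw [hi, hM, hinv]⟩
      simp only [if_pos h2, if_neg h1, Bool.not_not]
  · intro a
    rcases hcov a with ⟨i, hi⟩ | ⟨i, hi⟩
    · have h1 : ∃ i : ℤ, a = (g ^ i) a0 := ⟨i, hi⟩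
      have h2 : ¬ ∃ j : ℤ, hat s a = (g ^ j) a0 := by
        rintro ⟨j, hj⟩
        exact hdis j (i - 1) (by rw [← hj, hi, hs1])
      simp only [if_pos h1, if_neg h2]
    · have h1 : ¬ ∃ j : ℤ, a = (g ^ j) a0 := by
        rintro ⟨j, hj⟩
        exact hdis j i (by rw [← hj, hi])
      have h2 : ∃ j : ℤ, hat s a = (g ^ j) a0 := ⟨1 + i, by rw [hi, hs2]⟩
      simp only [if_pos h2, if_neg h1, Bool.not_not]
  · have h1 : ∃ i : ℤ, a0 = (g ^ i) a0 := ⟨0, by simp⟩
    simp only [if_pos h1]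

theorem col_unique (mu : T ⊕ W → T ⊕ W) (s : T ≃ W) (hc : Conn mu s) (k k' : T ⊕ W → Bool)
    (h1 : ∀ a, (k (mu a) = k' (mu a)) ↔ (k a = k' a))
    (h2 : ∀ a, (k (hat s a) = k' (hat s a)) ↔ (k a = k' a)) (a0 : T ⊕ W) (h0 : k a0 = k' a0) :
    k = k' := by
  funext a
  have := hc a0 a
  induction this with
  | refl => exact h0
  | tail _ hxy ih =>
    rcases hxy with h | h
    · rw [h]
      exact (h1 _).2 ih
    · rw [h]
      exact (h2 _).2 ih

end Pool.Agent.H3.K1
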