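import Mathlib

/-!
# All-Hamiltonian token/slot systems: definitions (project K1, MP_59e2db_co)

Tokens `T`, slots `W`, ends `T ⊕ W`, links `mu` (a fixed-point-free involution of the ends),
options `N : T → Finset W`. A placement is `s : T ≃ W`. `mu ∪ s` is a union of cycles; `Conn mu s`
says that it is one cycle. `AH`: every placement along options gives one cycle.
-/

namespace Pool.Agent.H3.K1

open Finset

variable {T W : Type*}

/-- The other end of the placement edge at an end. -/
def hat (s : T ≃ W) : T ⊕ W → T ⊕ W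
  | Sum.inl t => Sum.inr (s t)
  | Sum.inr w => Sum.inl (s.symm w)

@[simp] theorem hat_inl (s : T ≃ W) (t : T) : hat s (Sum.inl t) = Sum.inr (s t) := rfl
@[simp] theorem hat_inr (s : T ≃ W) (w : W) : hat s (Sum.inr w) = Sum.inl (s.symm w) := rfl
@[simp] theorem hat_hat (s : T ≃ W) (a : T ⊕ W) : hat s (hat s a) = a := by
  rcases a with t | w <;> simp

/-- The union of the links and the placement is a single cycle. -/
def Conn (mu : T ⊕ W → T ⊕ W) (s : T ≃ W) : Prop :=
  ∀ a b, Relation.ReflTransGen (fun x y => y = mu x ∨ y = hat s x) a b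

/-- All-Hamiltonian system. -/
structure AH (mu : T ⊕ W → T ⊕ W) (N : T → Finset W) : Prop where
  inv : ∀ a, mu (mu a) = a
  ne : ∀ a, mu a ≠ a
  conn : ∀ s : T ≃ W, (∀ t, s t ∈ N t) → Conn mu s

/-- Symmetric weight on the ends given by a token/slot matrix. -/
def wt (X : T → W → ℝ) : T ⊕ W → T ⊕ W → ℝ
  | Sum.inl t, Sum.inr w => X t w
  | Sum.inr w, Sum.inl t => X t w
  | _, _ => 0

/-- The ends oriented outwards by `k`. -/
abbrev Out (k : T ⊕ W → Bool) : Type _ := {a : T ⊕ W // k a = true}

/-- The matrix of the orientation `k` (column `b`: the out-end `b`; row `a`: the in-end `mu a`). -/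
def Amat (mu : T ⊕ W → T ⊕ W) (k : T ⊕ W → Bool) (X : T → W → ℝ) : Matrix (Out k) (Out k) ℝ :=
  fun a b => wt X b.1 (mu a.1)

variable [DecidableEq T] [DecidableEq W]

/-- The orientations of the links. -/
def Adm [Fintype T] [Fintype W] (mu : T ⊕ W → T ⊕ W) : Finset (T ⊕ W → Bool) :=
  Finset.univ.filter fun k => ∀ a, k (mu a) = !k a

/-- The orientations compatible with the frozen edges `t -- M t`, `t ∉ A`. -/
def Fro [Fintype T] [Fintype W] (mu : T ⊕ W → T ⊕ W) (M : T ≃ W) (A : Finset T) :
    Finset (T ⊕ W → Bool) :=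
  (Adm mu).filter fun k => ∀ t, t ∉ A → k (Sum.inr (M t)) = !k (Sum.inl t)

/-- The placement which is `M` outside `A` and `M ∘ p` on `A`. -/
def plc (M : T ≃ W) (A : Finset T) (p : Equiv.Perm {t // t ∈ A}) : T ≃ W :=
  (Equiv.Perm.ofSubtype p).trans M

/-- The matrix `Y` on `A × M(A)`, extended by the frozen edges. -/
def ext (M : T ≃ W) (A : Finset T) (Y : {t // t ∈ A} → {t // t ∈ A} → ℝ) : T → W → ℝ :=
  fun t w => if ht : t ∈ A then (if hw : M.symm w ∈ A then Y ⟨t, ht⟩ ⟨M.symm w, hw⟩ else 0)
    else if w = M t then 1 else 0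

/-- The mixed permanents: columns in `S` replaced by `v`. -/
def Dm {n R : Type*} [Fintype n] [DecidableEq n] [CommRing R] (S : Finset n) (a : Matrix n n R)
    (v : n → R) : R :=
  Matrix.permanent (Matrix.of fun i j => if j ∈ S then v i else a i j)

/-- Doubly stochastic matrices supported on `N`. -/
structure DS {n : Type*} [Fintype n] (N : n → Finset n) (Z : n → n → ℝ) : Prop where
  nonneg : ∀ t w, 0 ≤ Z t w
  row : ∀ t, ∑ w, Z t w = 1
  col : ∀ w, ∑ t, Z t w = 1
  supp : ∀ t w, Z t w ≠ 0 → w ∈ N t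

end Pool.Agent.H3.K1
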