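import Pool.Agent.H3.K1.Defs

/-!
# Mixed permanents, simple facts

PROOF. `Matrix.permanent M = ∑ σ, ∏ i, M (σ i) i`. `Dm_smul`: the columns `j ∈ S` contribute
`∏_{j∈S} (c * v (σ j))`. `Dm_univ`: every term is `∏ v (σ i) = ∏ v i` and there are `n!` of them.
`Dm_empty`: by definition. `Dm_pos`: a sum of products of positive reals over the nonempty type
`Equiv.Perm n`. `Dm_map`: a ring homomorphism commutes with sums and products.
-/

namespace Pool.Agent.H3.K1

open Finset

variable {n R : Type*} [Fintype n] [DecidableEq n] [CommRing R]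

theorem Dm_smul (S : Finset n) (a : Matrix n n R) (v : n → R) (c : R) :
    Dm S a (fun i => c * v i) = c ^ S.card * Dm S a v := by
  unfold Dm Matrix.permanent
  simp only [Matrix.of_apply]
  rw [Finset.mul_sum]
  refine Finset.sum_congr rfl fun σ _ => ?_
  have h1 : c ^ S.card = ∏ i, (if i ∈ S then c else 1) := by
    rw [Finset.prod_ite_mem, Finset.univ_inter, Finset.prod_const]
  rw [h1, ← Finset.prod_mul_distrib]
  refine Finset.prod_congr rfl fun i _ => ?_
  by_cases hi : i ∈ S
  · simp [hi]
  · simp [hi]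

theorem Dm_univ (a : Matrix n n R) (v : n → R) :
    Dm Finset.univ a v = (Fintype.card n).factorial * ∏ i, v i := by
  unfold Dm Matrix.permanent
  simp only [Matrix.of_apply, Finset.mem_univ, if_true]
  rw [Finset.sum_congr rfl (fun σ _ => Equiv.prod_comp σ v)]
  rw [Finset.sum_const, Finset.card_univ, Fintype.card_perm, nsmul_eq_mul]

theorem Dm_empty (a : Matrix n n R) (v : n → R) : Dm ∅ a v = a.permanent := by
  unfold Dm Matrix.permanent
  simp

theorem Dm_pos (S : Finset n) (a : Matrix n n ℝ) (v : n → ℝ) (ha : ∀ i j, 0 < a i j)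
    (hv : ∀ i, 0 < v i) : 0 < Dm S a v := by
  unfold Dm Matrix.permanent
  simp only [Matrix.of_apply]
  refine Finset.sum_pos (fun σ _ => Finset.prod_pos fun i _ => ?_) Finset.univ_nonempty
  split_ifs
  · exact hv _
  · exact ha _ _

theorem Dm_map (S : Finset n) (a : Matrix n n ℝ) (v : n → ℝ) :
    Dm S (fun i j => (a i j : ℂ)) (fun i => (v i : ℂ)) = ((Dm S a v : ℝ) : ℂ) := by
  unfold Dm Matrix.permanent
  simp only [Matrix.of_apply]
  rw [Complex.ofReal_sum]
  refine Finset.sum_congr rfl fun σ _ => ?_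
  rw [Complex.ofReal_prod]
  refine Finset.prod_congr rfl fun i _ => ?_
  split_ifs <;> rfl

end Pool.Agent.H3.K1
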