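import Pool.Agent.H3.K1.Defs

/-!
# The polynomial `z ↦ Dm S a (v + z a_k)`

PROOF. Take `P = ∑ σ, (∏_{j ∉ S} C (a (σ j) j)) * ∏_{j ∈ S} (C (v (σ j)) + C (a (σ j) k) * X)`
(write each permanent term as `∏_j (if j ∈ S then .. else ..)`, `Finset.prod_ite`). Evaluation:
clear. Degree: each factor has degree `≤ 1`. `coeff |S|`: the coefficient of `X^|S|` in
`∏_{j∈S} (C (v (σ j)) + C (a (σ j) k) * X)` is `∏_{j∈S} a (σ j) k`
(`Polynomial.coeff_prod_of_natDegree_le` or similar). `coeff 0`: evaluate at `0`.
`coeff 1` = value of the derivative at `0` = `∑ σ (∏_{j∉S} a (σ j) j) ∑_{j∈S} a (σ j) k *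
∏_{i∈S, i≠j} v (σ i)` (`Polynomial.derivative_prod`). For fixed `j ∈ S` substitute
`σ = σ' * swap j k`: then `σ j = σ' k`, `σ k = σ' j`, the other values agree, so the sum over `σ`
is `∑ σ' (∏_{i∉S} a (σ' i) i) a (σ' k) k ∏_{i∈S, i≠k} v (σ' i) = Dm (S.erase k) a v`; there are
`|S|` values of `j`.
-/

namespace Pool.Agent.H3.K1

open Finset Polynomial

variable {n R : Type*} [Fintype n] [DecidableEq n] [CommRing R]

theorem Dm_poly (S : Finset n) (a : Matrix n n R) (v : n → R) (k : n) (hk : k ∈ S) :
    ∃ P : R[X], P.natDegree ≤ S.card ∧ (∀ z, P.eval z = Dm S a (fun i => v i + z * a i k)) ∧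
      P.coeff S.card = Dm S a (fun i => a i k) ∧ P.coeff 0 = Dm S a v ∧
      P.coeff 1 = S.card * Dm (S.erase k) a v := by
  classical
  set f : Equiv.Perm n → n → R[X] := fun σ j =>
    if j ∈ S then C (v (σ j)) + C (a (σ j) k) * X else C (a (σ j) j) with hf
  have hev : ∀ z, (∑ σ, ∏ j, f σ j).eval z = Dm S a (fun i => v i + z * a i k) := by
    intro z
    simp only [Dm, Matrix.permanent, Matrix.of_apply, eval_finsetSum, eval_prod]
    refine Finset.sum_congr rfl fun σ _ => Finset.prod_congr rfl fun j _ => ?_
    by_cases hj : j ∈ S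
    · simp only [hf, hj, if_true, eval_add, eval_mul, eval_C, eval_X]
      ring
    · simp only [hf, hj, if_false, eval_C]
  have hdeg : ∀ σ j, (f σ j).natDegree ≤ if j ∈ S then 1 else 0 := by
    intro σ j
    by_cases hj : j ∈ S
    · simp only [hf, hj, if_true]
      refine (natDegree_add_le _ _).trans (max_le ?_ ?_)
      · simp
      · exact (natDegree_C_mul_le _ _).trans natDegree_X_le
    · simp only [hf, hj, if_false, natDegree_C, le_refl]
  refine ⟨∑ σ, ∏ j, f σ j, ?_, hev, ?_, ?_, ?_⟩
  · refine natDegree_sum_le_of_forall_le _ _ fun σ _ => ?_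
    refine (natDegree_prod_le _ _).trans ?_
    refine (Finset.sum_le_sum fun j _ => hdeg σ j).trans ?_
    rw [Finset.sum_ite_mem, Finset.univ_inter, Finset.sum_const, smul_eq_mul, mul_one]
  · rw [finsetSum_coeff]
    simp only [Dm, Matrix.permanent, Matrix.of_apply]
    refine Finset.sum_congr rfl fun σ _ => ?_
    have h1 : ∏ j, f σ j = (∏ j ∈ S, (C (v (σ j)) + C (a (σ j) k) * X)) *
        C (∏ j ∈ Sᶜ, a (σ j) j) := by
      rw [map_prod, ← Finset.prod_mul_prod_compl S]
      congr 1
      · exact Finset.prod_congr rfl fun j hj => by simp only [hf, hj, if_true]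
      · refine Finset.prod_congr rfl fun j hj => ?_
        rw [Finset.mem_compl] at hj
        simp only [hf, hj, if_false]
    have h2 : (∏ j ∈ S, (C (v (σ j)) + C (a (σ j) k) * X)).coeff S.card = ∏ j ∈ S, a (σ j) k := by
      have h3 := coeff_prod_of_natDegree_le (s := S)
        (fun j => (C (v (σ j)) + C (a (σ j) k) * X : R[X])) 1 (fun j hj => by
          have := hdeg σ j
          simpa only [hf, hj, if_true] using this)
      rw [mul_one] at h3
      rw [h3]
      refine Finset.prod_congr rfl fun j _ => ?_
      rw [coeff_add, coeff_C, coeff_C_mul, coeff_X_one]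
      simp
    rw [h1, coeff_mul_C, h2, ← Finset.prod_mul_prod_compl S (fun j => if j ∈ S then _ else _)]
    congr 1
    · exact Finset.prod_congr rfl fun j hj => by simp only [hj, if_true]
    · refine Finset.prod_congr rfl fun j hj => ?_
      rw [Finset.mem_compl] at hj
      simp only [hj, if_false]
  · rw [coeff_zero_eq_eval_zero, hev]
    simp only [zero_mul, add_zero]
  · have h1 : ∀ σ : Equiv.Perm n, (∏ j, f σ j).coeff 1 =
        ∑ j ∈ S, (∏ i ∈ univ.erase j, if i ∈ S then v (σ i) else a (σ i) i) * a (σ j) k := by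
      intro σ
      have h2 : (∏ j, f σ j).coeff 1 = (derivative (∏ j, f σ j)).eval 0 := by
        rw [← coeff_zero_eq_eval_zero, coeff_derivative]
        simp
      rw [h2, derivative_prod_finset, eval_finsetSum]
      have h3 : ∀ j, eval 0 ((∏ i ∈ univ.erase j, f σ i) * derivative (f σ j)) =
          if j ∈ S then (∏ i ∈ univ.erase j, if i ∈ S then v (σ i) else a (σ i) i) * a (σ j) k
          else 0 := by
        intro j
        rw [eval_mul, eval_prod]
        have h4 : ∀ i, eval 0 (f σ i) = if i ∈ S then v (σ i) else a (σ i) i := by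
          intro i
          by_cases hi : i ∈ S
          · simp [hf, hi]
          · simp [hf, hi]
        simp only [h4]
        by_cases hj : j ∈ S
        · simp [hf, hj]
        · simp [hf, hj]
      simp only [h3]
      rw [Finset.sum_ite_mem, Finset.univ_inter]
    rw [finsetSum_coeff]
    simp only [h1]
    rw [Finset.sum_comm]
    have h5 : ∀ j ∈ S, ∑ σ : Equiv.Perm n,
        (∏ i ∈ univ.erase j, if i ∈ S then v (σ i) else a (σ i) i) * a (σ j) k =
        Dm (S.erase k) a v := by
      intro j hj
      simp only [Dm, Matrix.permanent, Matrix.of_apply]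
      rw [← Equiv.sum_comp (Equiv.mulRight (Equiv.swap j k))]
      refine Finset.sum_congr rfl fun σ _ => ?_
      rw [Equiv.coe_mulRight]
      have h6 : (∏ i ∈ univ.erase j, if i ∈ S then v ((σ * Equiv.swap j k) i)
          else a ((σ * Equiv.swap j k) i) i) =
          ∏ i ∈ univ.erase k, if i ∈ S then v (σ i) else a (σ i) i := by
        refine Finset.prod_equiv (Equiv.swap j k) ?_ ?_
        · intro i
          simp only [Finset.mem_erase, Finset.mem_univ, and_true, ne_eq]
          rw [not_iff_not]
          constructor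
          · rintro rfl; exact Equiv.swap_apply_left _ _
          · intro h
            have := congrArg (Equiv.swap j k) h
            rwa [Equiv.swap_apply_self, Equiv.swap_apply_right] at this
        · intro i hi
          rw [Finset.mem_erase] at hi
          rw [Equiv.Perm.mul_apply]
          by_cases hik : i = k
          · subst hik
            rw [Equiv.swap_apply_right]
            simp only [hk, hj, if_true]
          · rw [Equiv.swap_apply_of_ne_of_ne hi.1 hik]
      rw [h6, Equiv.Perm.mul_apply, Equiv.swap_apply_left,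
        ← Finset.prod_erase_mul _ _ (Finset.mem_univ k)]
      congr 1
      · refine Finset.prod_congr rfl fun i hi => ?_
        rw [Finset.mem_erase] at hi
        simp only [Finset.mem_erase, ne_eq, hi.1, not_false_iff, true_and]
      · simp
    rw [Finset.sum_congr rfl h5, Finset.sum_const, nsmul_eq_mul]

end Pool.Agent.H3.K1
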