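import Pool.Agent.H3.K1.Defs

/-!
# Hadamard's inequality (columns)

PROOF. If some `r j = 0` the column `j` is zero and `det A = 0`. Otherwise divide column `j` by
`r j`: it is enough to show `|det A| ≤ 1` when every column has square sum `≤ 1`. `G = Aᵀ * A` is
positive semidefinite (`Matrix.posSemidef_conjTranspose_mul_self`, real case), its eigenvalues
`λ_i ≥ 0` satisfy `∏ λ_i = det G = (det A)^2` (`Matrix.IsHermitian.det_eq_prod_eigenvalues`) and
`∑ λ_i = trace G = ∑ (column square sums) ≤ n` (`Matrix.IsHermitian.trace_eq_sum_eigenvalues`).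
AM-GM: `∏ λ_i ≤ ((∑ λ_i)/n)^n ≤ 1`.
-/

namespace Pool.Agent.H3.K1

open Finset

variable {n : Type*} [Fintype n] [DecidableEq n]

private theorem hdm_one (B : Matrix n n ℝ) (h : ∀ j, ∑ i, B i j ^ 2 ≤ 1) : |B.det| ≤ 1 := by
  have hpsd := Matrix.posSemidef_conjTranspose_mul_self B
  have hH := hpsd.isHermitian
  have hdet : (B.conjTranspose * B).det = B.det ^ 2 := by
    rw [Matrix.det_mul, Matrix.det_conjTranspose]
    simp [sq]
  have htr : (B.conjTranspose * B).trace = ∑ j, ∑ i, B i j ^ 2 := by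
    rw [Matrix.trace]
    refine sum_congr rfl fun j _ => ?_
    rw [Matrix.diag_apply, Matrix.mul_apply]
    refine sum_congr rfl fun i _ => ?_
    rw [Matrix.conjTranspose_apply]
    simp [sq]
  have h1 := hH.det_eq_prod_eigenvalues
  have h2 := hH.trace_eq_sum_eigenvalues
  rw [hdet] at h1
  rw [htr] at h2
  have h3 : B.det ^ 2 = ∏ i, hH.eigenvalues i := by
    rw [h1]
    rfl
  have h4 : ∑ i, hH.eigenvalues i = ∑ j, ∑ i, B i j ^ 2 := by
    rw [h2]
    rfl
  have h5 : ∏ i, hH.eigenvalues i ≤ Real.exp (∑ i, (hH.eigenvalues i - 1)) := by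
    rw [Real.exp_sum]
    refine prod_le_prod (fun i _ => hpsd.eigenvalues_nonneg i) fun i _ => ?_
    have := Real.add_one_le_exp (hH.eigenvalues i - 1)
    linarith
  have h6 : ∑ i, (hH.eigenvalues i - 1) ≤ 0 := by
    rw [sum_sub_distrib, h4, ← sum_sub_distrib]
    exact sum_nonpos fun j _ => by linarith [h j]
  have h7 : B.det ^ 2 ≤ 1 := by
    rw [h3]
    refine h5.trans ?_
    have h := Real.exp_le_exp.2 h6
    rwa [Real.exp_zero] at h
  have h8 : |B.det| ^ 2 ≤ 1 := by rw [sq_abs]; exact h7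
  by_contra hc
  push Not at hc
  have h9 : 1 < |B.det| ^ 2 := one_lt_pow₀ hc two_ne_zero
  linarith

theorem hadamard (A : Matrix n n ℝ) (r : n → ℝ) (hr : ∀ j, 0 ≤ r j)
    (h : ∀ j, ∑ i, A i j ^ 2 ≤ r j ^ 2) : |A.det| ≤ ∏ j, r j := by
  by_cases h0 : ∃ j, r j = 0
  · obtain ⟨j, hj⟩ := h0
    have hz : ∀ i, A i j = 0 := by
      intro i
      have h1 := h j
      rw [hj] at h1
      have h2 : A i j ^ 2 ≤ ∑ i, A i j ^ 2 :=
        single_le_sum (f := fun i => A i j ^ 2) (fun _ _ => sq_nonneg _) (mem_univ i)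
      have h3 : A i j ^ 2 ≤ 0 := by
        have : (0 : ℝ) ^ 2 = 0 := by norm_num
        linarith
      exact pow_eq_zero_iff two_ne_zero |>.1 (le_antisymm h3 (sq_nonneg _))
    rw [Matrix.det_eq_zero_of_column_eq_zero j hz, abs_zero]
    exact prod_nonneg fun j _ => hr j
  · push Not at h0
    have hpos : ∀ j, 0 < r j := fun j => lt_of_le_of_ne (hr j) (Ne.symm (h0 j))
    obtain ⟨B, hB⟩ : ∃ B : Matrix n n ℝ, B = fun i j => A i j / r j := ⟨_, rfl⟩
    have hAB : A = B * Matrix.diagonal r := by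
      ext i j
      rw [Matrix.mul_diagonal, hB]
      exact (div_mul_cancel₀ _ (h0 j)).symm
    have hB1 : ∀ j, ∑ i, B i j ^ 2 ≤ 1 := by
      intro j
      have e1 : ∑ i, B i j ^ 2 = (∑ i, A i j ^ 2) / r j ^ 2 := by
        rw [sum_div, hB]
        exact sum_congr rfl fun i _ => div_pow _ _ _
      rw [e1, div_le_one (pow_pos (hpos j) 2)]
      exact h j
    have h1 := hdm_one B hB1
    have h2 : 0 < ∏ j, r j := prod_pos fun j _ => hpos j
    rw [hAB, Matrix.det_mul, Matrix.det_diagonal, abs_mul, abs_of_pos h2]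
    calc |B.det| * ∏ j, r j ≤ 1 * ∏ j, r j := mul_le_mul_of_nonneg_right h1 h2.le
      _ = _ := one_mul _

end Pool.Agent.H3.K1
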