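import Pool.Agent.H3.K1.Defs

/-!
# The tight cut of the flattest matrix

PROOF. Let `Z t0 w0 = m`. RESIDUAL WALKS: define `Reach : n → Prop` on slots inductively:
`w ∈ N t0, Z t0 w < m → Reach w`; `Reach w, 0 < Z t w, w' ∈ N t, Z t w' < m → Reach w'`. CLAIM: for
every reachable slot `w` there is `F : n → n → ℝ` with `F t w' ≠ 0 → w' ∈ N t`, row sums
`∑_w' F t w' = [t = t0]`, column sums `∑_t F t w' = [w' = w]`, and `F t w' > 0 → Z t w' < m`,
`F t w' < 0 → 0 < Z t w'`. Induction: start with the single entry `1` at `(t0, w)`; step: add `-1`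
at `(t, w)` and `+1` at `(t, w')` (signs: if the new entry at `(t,w)` is negative use `0 < Z t w`, if
positive then the old entry was positive; same at `(t,w')`; if `w' = w` take the old `F`).
`w0` IS NOT REACHABLE: otherwise `G = F - [t0,w0]` has all row and column sums `0`,
`G t0 w0 < 0` (the old entry was not positive as `Z t0 w0 = m`). For small `δ > 0`,
`Z' = Z + δ G` is `DS N`: entries with `G < 0` have `Z > 0` (for `(t0,w0)`: `Z = m > 0`), entries with
`G > 0` have `Z < m` so `Z' < m`. The entries of `Z'` equal to `m` are entries of `Z` equal to `m`,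
and `(t0,w0)` is not one of them: contradiction to the last property of `Z`.
THE CUT: `B` = reachable slots, `A = {t0} ∪ {t | ∃ w ∈ B, 0 < Z t w}`. For `t ∈ A`, `w ∈ N t \ B`:
`Z t w = m`. For `t ∉ A`, `w ∈ B`: `Z t w = 0`. `t0 ∈ A`, `w0 ∈ N t0 \ B` (`supp`, `Z t0 w0 = m > 0`).
-/

namespace Pool.Agent.H3.K1

open Finset

variable {n : Type*} [Fintype n] [DecidableEq n]

private inductive rsReach (N : n → Finset n) (Z : n → n → ℝ) (m : ℝ) (t0 : n) : n → Prop
  | base (w : n) : w ∈ N t0 → Z t0 w < m → rsReach N Z m t0 w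
  | step (w t w' : n) : rsReach N Z m t0 w → 0 < Z t w → w' ∈ N t → Z t w' < m →
      rsReach N Z m t0 w'

private def rsE (t1 w1 : n) : n → n → ℝ := fun t w => if t = t1 then (if w = w1 then 1 else 0) else 0

omit [Fintype n] in
private theorem rsE_self (t1 w1 : n) : rsE t1 w1 t1 w1 = 1 := by simp [rsE]

omit [Fintype n] in
private theorem rsE_ne {t1 w1 t w : n} (h : ¬ (t = t1 ∧ w = w1)) : rsE t1 w1 t w = 0 := by
  unfold rsE
  split_ifs with h1 h2
  · exact absurd ⟨h1, h2⟩ h
  · rfl
  · rfl

private theorem rsE_row (t1 w1 t : n) : ∑ w, rsE t1 w1 t w = if t = t1 then 1 else 0 := by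
  unfold rsE
  by_cases h : t = t1
  · simp [h]
  · simp [h]

private theorem rsE_col (t1 w1 w : n) : ∑ t, rsE t1 w1 t w = if w = w1 then 1 else 0 := by
  unfold rsE
  simp

private theorem rs_flow {N : n → Finset n} {Z : n → n → ℝ} {m : ℝ} (hZ : DS N Z) {t0 w : n}
    (h : rsReach N Z m t0 w) : ∃ F : n → n → ℝ, (∀ t w', F t w' ≠ 0 → w' ∈ N t) ∧
      (∀ t, ∑ w', F t w' = if t = t0 then 1 else 0) ∧
      (∀ w', ∑ t, F t w' = if w' = w then 1 else 0) ∧
      (∀ t w', 0 < F t w' → Z t w' < m) ∧ (∀ t w', F t w' < 0 → 0 < Z t w') := by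
  induction h with
  | base w hw hlt =>
      refine ⟨rsE t0 w, ?_, rsE_row t0 w, rsE_col t0 w, ?_, ?_⟩
      · intro t w' hne
        by_cases e : t = t0 ∧ w' = w
        · rw [e.1, e.2]; exact hw
        · exact absurd (rsE_ne e) hne
      · intro t w' hpos
        by_cases e : t = t0 ∧ w' = w
        · rw [e.1, e.2]; exact hlt
        · rw [rsE_ne e] at hpos
          exact absurd hpos (lt_irrefl _)
      · intro t w' hneg
        exfalso
        unfold rsE at hneg
        split_ifs at hneg <;> linarith
  | step w t w' hw hpos hmem hlt ih =>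
      obtain ⟨F, h1, h2, h3, h4, h5⟩ := ih
      by_cases e : w' = w
      · subst e
        exact ⟨F, h1, h2, h3, h4, h5⟩
      · refine ⟨fun u v => F u v + rsE t w' u v - rsE t w u v, ?_, ?_, ?_, ?_, ?_⟩
        · intro u v hne
          by_cases e1 : u = t ∧ v = w'
          · rw [e1.1, e1.2]; exact hmem
          · by_cases e2 : u = t ∧ v = w
            · rw [e2.1, e2.2]
              exact hZ.supp t w hpos.ne'
            · apply h1
              simp only [rsE_ne e1, rsE_ne e2, add_zero, sub_zero] at hne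
              exact hne
        · intro u
          rw [Finset.sum_sub_distrib, Finset.sum_add_distrib, h2, rsE_row, rsE_row]
          ring
        · intro v
          rw [Finset.sum_sub_distrib, Finset.sum_add_distrib, h3, rsE_col, rsE_col]
          ring
        · intro u v hp
          by_cases e1 : u = t ∧ v = w'
          · rw [e1.1, e1.2]; exact hlt
          · by_cases e2 : u = t ∧ v = w
            · apply h4
              have a1 := rsE_ne e1
              simp only [a1, add_zero] at hp
              have a2 : rsE t w u v = 1 := by rw [e2.1, e2.2]; exact rsE_self t w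
              rw [a2] at hp
              linarith
            · apply h4
              simp only [rsE_ne e1, rsE_ne e2, add_zero, sub_zero] at hp
              exact hp
        · intro u v hn
          by_cases e2 : u = t ∧ v = w
          · rw [e2.1, e2.2]; exact hpos
          · by_cases e1 : u = t ∧ v = w'
            · apply h5
              have a1 := rsE_ne e2
              simp only [a1, sub_zero] at hn
              have a2 : rsE t w' u v = 1 := by rw [e1.1, e1.2]; exact rsE_self t w'
              rw [a2] at hn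
              linarith
            · apply h5
              simp only [rsE_ne e1, rsE_ne e2, add_zero, sub_zero] at hn
              exact hn

private theorem rs_delta (Z G : n → n → ℝ) (m : ℝ) (h1 : ∀ t w, 0 < G t w → Z t w < m)
    (h2 : ∀ t w, G t w < 0 → 0 < Z t w) :
    ∃ d : ℝ, 0 < d ∧ ∀ t w, (0 < G t w → Z t w + d * G t w < m) ∧
      (G t w < 0 → 0 < Z t w + d * G t w) := by
  have hev : ∀ᶠ d : ℝ in nhdsWithin 0 (Set.Ioi 0), ∀ t w, (0 < G t w → Z t w + d * G t w < m) ∧
      (G t w < 0 → 0 < Z t w + d * G t w) := by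
    rw [Filter.eventually_all]
    intro t
    rw [Filter.eventually_all]
    intro w
    have ht : Filter.Tendsto (fun d : ℝ => Z t w + d * G t w) (nhdsWithin 0 (Set.Ioi 0))
        (nhds (Z t w)) := by
      have : Continuous fun d : ℝ => Z t w + d * G t w := by fun_prop
      have h0 := this.tendsto 0
      simp only [zero_mul, add_zero] at h0
      exact h0.mono_left nhdsWithin_le_nhds
    refine Filter.Eventually.and ?_ ?_
    · by_cases hg : 0 < G t w
      · filter_upwards [ht.eventually_lt_const (h1 t w hg)] with d hd _ using hd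
      · exact Filter.Eventually.of_forall fun d hd => absurd hd hg
    · by_cases hg : G t w < 0
      · filter_upwards [ht.eventually_const_lt (h2 t w hg)] with d hd _ using hd
      · exact Filter.Eventually.of_forall fun d hd => absurd hd hg
  obtain ⟨d, hd, hd0⟩ := (hev.and self_mem_nhdsWithin).exists
  exact ⟨d, hd0, hd⟩

private theorem rs_not_reach {N : n → Finset n} {Z : n → n → ℝ} {m : ℝ} (hZ : DS N Z) (hm : 0 < m)
    (hle : ∀ t w, Z t w ≤ m) {t0 w0 : n} (h0 : Z t0 w0 = m)
    (hmin : ∀ Z' : n → n → ℝ, DS N Z' → (∀ t w, Z' t w ≤ m) →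
      (∀ t w, Z' t w = m → Z t w = m) → ∀ t w, Z t w = m → Z' t w = m) :
    ¬ rsReach N Z m t0 w0 := by
  intro hr
  obtain ⟨F, f1, f2, f3, f4, f5⟩ := rs_flow hZ hr
  have hF0 : F t0 w0 ≤ 0 := by
    by_contra hc
    have := f4 t0 w0 (not_le.mp hc)
    rw [h0] at this
    exact lt_irrefl _ this
  set G : n → n → ℝ := fun t w => F t w - rsE t0 w0 t w with hG
  have hGrow : ∀ t, ∑ w, G t w = 0 := by
    intro t
    simp only [hG]
    rw [Finset.sum_sub_distrib, f2, rsE_row, sub_self]
  have hGcol : ∀ w, ∑ t, G t w = 0 := by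
    intro w
    simp only [hG]
    rw [Finset.sum_sub_distrib, f3, rsE_col, sub_self]
  have hG0 : G t0 w0 < 0 := by
    simp only [hG, rsE_self]
    linarith
  have hGe : ∀ t w, ¬ (t = t0 ∧ w = w0) → G t w = F t w := by
    intro t w e
    simp only [hG, rsE_ne e, sub_zero]
  have g1 : ∀ t w, 0 < G t w → Z t w < m := by
    intro t w hg
    by_cases e : t = t0 ∧ w = w0
    · rw [e.1, e.2] at hg
      linarith
    · rw [hGe t w e] at hg
      exact f4 t w hg
  have g2 : ∀ t w, G t w < 0 → 0 < Z t w := by
    intro t w hg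
    by_cases e : t = t0 ∧ w = w0
    · rw [e.1, e.2, h0]
      exact hm
    · rw [hGe t w e] at hg
      exact f5 t w hg
  obtain ⟨d, hd, hdd⟩ := rs_delta Z G m g1 g2
  have hDS : DS N (fun t w => Z t w + d * G t w) := by
    refine ⟨?_, ?_, ?_, ?_⟩
    · intro t w
      rcases lt_or_ge (G t w) 0 with hg | hg
      · exact ((hdd t w).2 hg).le
      · have := hZ.nonneg t w
        positivity
    · intro t
      rw [Finset.sum_add_distrib, ← Finset.mul_sum, hZ.row, hGrow]
      ring
    · intro w
      rw [Finset.sum_add_distrib, ← Finset.mul_sum, hZ.col, hGcol]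
      ring
    · intro t w hne
      by_cases e : t = t0 ∧ w = w0
      · rw [e.1, e.2]
        apply hZ.supp
        rw [h0]
        exact hm.ne'
      · by_cases hz : Z t w = 0
        · apply f1
          rw [← hGe t w e]
          intro hg
          apply hne
          rw [hz, hg]
          ring
        · exact hZ.supp t w hz
  have hm' : ∀ t w, Z t w + d * G t w ≤ m := by
    intro t w
    rcases lt_or_ge 0 (G t w) with hg | hg
    · exact ((hdd t w).1 hg).le
    · have := hle t w
      nlinarith [mul_nonneg hd.le (neg_nonneg.mpr hg)]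
  have heq : ∀ t w, Z t w + d * G t w = m → Z t w = m := by
    intro t w h
    rcases lt_trichotomy (G t w) 0 with hg | hg | hg
    · have := hle t w
      nlinarith [mul_pos hd (neg_pos.mpr hg)]
    · rw [hg] at h
      linarith
    · have := (hdd t w).1 hg
      linarith
  have := hmin _ hDS hm' heq t0 w0 h0
  simp only [h0] at this
  nlinarith [mul_pos hd (neg_pos.mpr hG0)]

theorem exists_cut (N : n → Finset n) (Z : n → n → ℝ) (m : ℝ) (hZ : DS N Z) (hm : 0 < m)
    (hle : ∀ t w, Z t w ≤ m) (t0 w0 : n) (h0 : Z t0 w0 = m)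
    (hmin : ∀ Z' : n → n → ℝ, DS N Z' → (∀ t w, Z' t w ≤ m) →
      (∀ t w, Z' t w = m → Z t w = m) → ∀ t w, Z t w = m → Z' t w = m) :
    ∃ A B : Finset n, (∀ t ∈ A, ∀ w ∈ N t, w ∉ B → Z t w = m) ∧
      (∀ t, t ∉ A → ∀ w ∈ B, Z t w = 0) ∧ t0 ∈ A ∧ w0 ∉ B := by
  classical
  refine ⟨Finset.univ.filter fun t => t = t0 ∨ ∃ w, rsReach N Z m t0 w ∧ 0 < Z t w,
    Finset.univ.filter fun w => rsReach N Z m t0 w, ?_, ?_, ?_, ?_⟩
  · intro t ht w hw hwB
    simp only [Finset.mem_filter, Finset.mem_univ, true_and] at ht hwB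
    by_contra hne
    have hlt : Z t w < m := lt_of_le_of_ne (hle t w) hne
    rcases ht with rfl | ⟨w1, h1, h2⟩
    · exact hwB (rsReach.base w hw hlt)
    · exact hwB (rsReach.step w1 t w h1 h2 hw hlt)
  · intro t ht w hw
    simp only [Finset.mem_filter, Finset.mem_univ, true_and] at ht hw
    by_contra hne
    apply ht
    right
    exact ⟨w, hw, lt_of_le_of_ne (hZ.nonneg t w) (Ne.symm hne)⟩
  · simp
  · simp only [Finset.mem_filter, Finset.mem_univ, true_and]
    exact rs_not_reach hZ hm hle h0 hmin

end Pool.Agent.H3.K1
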