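import Pool.Agent.H3.K1.Defs

/-!
# Birkhoff selection

PROOF. `exists_eq_sum_perm_of_mem_doublyStochastic` (`Mathlib.Analysis.Convex.Birkhoff`) for the
matrix `Z`: `Z = ∑ σ, c σ • σ.permMatrix ℝ`, `c σ ≥ 0`, `∑ c σ = 1`; `σ.permMatrix i j = 1` if
`σ i = j`, else `0`. With `L(σ) = ∑_{t ∈ A, σ t ∉ B} p t`: `∑_{t∈A} p t ∑_{w∉B} Z t w = ∑ σ, c σ L(σ)`,
so some `σ` with `c σ > 0` has `L(σ) ≥` this average. `c σ > 0` gives `Z t (σ t) > 0` for all `t`,
hence `σ t ∈ N t`, and `σ t ∉ B` for `t ∉ A`.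
-/

namespace Pool.Agent.H3.K1

open Finset

variable {n : Type*} [Fintype n] [DecidableEq n]

theorem exists_sel (N : n → Finset n) (Z : n → n → ℝ) (hZ : DS N Z) (A B : Finset n)
    (hB : ∀ t, t ∉ A → ∀ w ∈ B, Z t w = 0) (p : n → ℝ) :
    ∃ σ : Equiv.Perm n, (∀ t, σ t ∈ N t) ∧ (∀ t, t ∉ A → σ t ∉ B) ∧
      ∑ t ∈ A, p t * ∑ w ∈ Bᶜ, Z t w ≤ ∑ t ∈ A.filter (fun t => σ t ∉ B), p t := by
  have hM : (Matrix.of Z) ∈ doublyStochastic ℝ n := by
    rw [mem_doublyStochastic_iff_sum]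
    exact ⟨hZ.nonneg, hZ.row, hZ.col⟩
  obtain ⟨c, hc0, hc1, hc2⟩ := exists_eq_sum_perm_of_mem_doublyStochastic hM
  have hZc : ∀ t w, Z t w = ∑ σ : Equiv.Perm n, c σ * (if σ t = w then 1 else 0) := by
    intro t w
    have h1 : (Matrix.of Z) t w = (∑ σ : Equiv.Perm n, c σ • σ.permMatrix ℝ) t w := by rw [hc2]
    rw [Matrix.of_apply, Matrix.sum_apply] at h1
    rw [h1]
    refine Finset.sum_congr rfl fun σ _ => ?_
    rw [Matrix.smul_apply, smul_eq_mul]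
    congr 1
    simp [Equiv.Perm.permMatrix, PEquiv.toMatrix_apply, Equiv.toPEquiv_apply, eq_comm]
  have hpos : ∀ σ : Equiv.Perm n, 0 < c σ → ∀ t, Z t (σ t) ≠ 0 := by
    intro σ hσ t
    have h1 : c σ ≤ Z t (σ t) := by
      rw [hZc]
      have h2 := Finset.single_le_sum (s := Finset.univ)
        (f := fun τ : Equiv.Perm n => c τ * (if τ t = σ t then (1 : ℝ) else 0))
        (fun τ _ => by
          have := hc0 τ
          positivity) (Finset.mem_univ σ)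
      simpa using h2
    exact (lt_of_lt_of_le hσ h1).ne'
  have havg : ∑ t ∈ A, p t * ∑ w ∈ Bᶜ, Z t w =
      ∑ σ : Equiv.Perm n, c σ * ∑ t ∈ A.filter (fun t => σ t ∉ B), p t := by
    have h1 : ∀ t, ∑ w ∈ Bᶜ, Z t w =
        ∑ σ : Equiv.Perm n, c σ * (if σ t ∉ B then 1 else 0) := by
      intro t
      simp_rw [hZc t]
      rw [Finset.sum_comm]
      refine Finset.sum_congr rfl fun σ _ => ?_
      rw [← Finset.mul_sum, Finset.sum_ite_eq]
      simp only [Finset.mem_compl]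
    simp_rw [h1, Finset.mul_sum]
    rw [Finset.sum_comm]
    refine Finset.sum_congr rfl fun σ _ => ?_
    rw [Finset.sum_filter]
    refine Finset.sum_congr rfl fun t _ => ?_
    split_ifs <;> ring
  rw [havg]
  set L : ℝ := ∑ σ : Equiv.Perm n, c σ * ∑ t ∈ A.filter (fun t => σ t ∉ B), p t with hL
  by_contra hcon
  have hlt : ∀ σ : Equiv.Perm n, 0 < c σ → ∑ t ∈ A.filter (fun t => σ t ∉ B), p t < L := by
    intro σ hσ
    by_contra h
    exact hcon ⟨σ, fun t => hZ.supp _ _ (hpos σ hσ t),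
      fun t ht hm => hpos σ hσ t (hB t ht _ hm), not_lt.1 h⟩
  obtain ⟨σ0, hσ0⟩ : ∃ σ, 0 < c σ := by
    by_contra h
    push Not at h
    have : ∑ σ, c σ ≤ 0 := Finset.sum_nonpos fun σ _ => h σ
    linarith
  have h3 : L < ∑ σ : Equiv.Perm n, c σ * L := by
    rw [hL]
    refine Finset.sum_lt_sum (fun σ _ => ?_) ⟨σ0, Finset.mem_univ _, ?_⟩
    · rcases (hc0 σ).eq_or_lt with h | h
      · rw [← h, zero_mul, zero_mul]
      · exact mul_le_mul_of_nonneg_left (hlt σ h).le h.le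
    · exact mul_lt_mul_of_pos_left (hlt σ0 hσ0) hσ0
  rw [← Finset.sum_mul, hc1, one_mul] at h3
  exact lt_irrefl _ h3

end Pool.Agent.H3.K1
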