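import Pool.Agent.H3.K1.MinE
import Pool.Agent.H3.K1.Resid
import Pool.Agent.H3.K1.Sel

/-!
# The reduction lemma

PROOF. `two_rpow_le`: convexity of `2^x` on `[0,1]`. `reduction`: take `Z, m` of `exists_flat`. If
`m ≤ e` the first alternative holds. Otherwise `e < m`; `exists_cut` gives `A, B, t0, w0`. Put
`l t = |N t \ B|`, `p t = 2^(-e |N t|)`. For `t ∈ A`: `∑_{w ∉ B} Z t w = m l t` (entries outside
`N t` vanish), hence `m l t ≤ 1` and `e l t ≤ 1`. `exists_sel` gives `σ`. `A' = A.filter (σ t ∈ B)`.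
`σ(A') = B` (a `t` with `σ t ∈ B` is in `A`), so `N t ∩ σ(A') = N t ∩ B` has `|N t| - l t` elements
and `∑_{A'} 2^(-e |N t ∩ σ(A')|) = ∑_{A'} p t 2^(e l t) ≤ ∑_{A'} p t (1 + e l t)
≤ ∑_{A'} p t + ∑_A p t m l t ≤ ∑_{A'} p t + ∑_{t ∈ A, σ t ∉ B} p t = ∑_A p t ≤ ∑ p t`.
`A'` nonempty: if `B = ∅` then `m |N t0| = ∑_w Z t0 w = 1`, so `e |N t0| < 1`, `p t0 > 1/2`,
contradiction to the hypothesis; so `B ≠ ∅` and `|A'| = |B| > 0`. `A' ≠ univ`: `|A| =
∑_{t∈A} ∑_w Z t w = ∑_{w∈B} ∑_{t} Z t w + ∑_{t∈A} m l t = |B| + m ∑_A l t > |B| = |A'|`, since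
`l t0 ≥ 1` (`w0`, `Z t0 w0 = m ≠ 0` so `w0 ∈ N t0`).
-/

namespace Pool.Agent.H3.K1

open Finset

variable {n : Type*} [Fintype n] [DecidableEq n]

theorem two_rpow_le (x : ℝ) (h0 : 0 ≤ x) (h1 : x ≤ 1) : (2 : ℝ) ^ x ≤ 1 + x := by
  have h := rpow_one_add_le_one_add_mul_self (s := 1) (by norm_num) h0 h1
  rw [mul_one] at h
  norm_num at h
  exact h

private theorem lr_row {N : n → Finset n} {Z : n → n → ℝ} (hZ : DS N Z) {m : ℝ} {A B : Finset n}
    (hAB : ∀ t ∈ A, ∀ w ∈ N t, w ∉ B → Z t w = m) {t : n} (ht : t ∈ A) :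
    ∑ w ∈ Bᶜ, Z t w = m * ((N t \ B).card : ℝ) := by
  have h1 : ∑ w ∈ Bᶜ, Z t w = ∑ w ∈ N t \ B, Z t w := by
    symm
    refine Finset.sum_subset (fun w hw => ?_) (fun w hw hw' => ?_)
    · rw [Finset.mem_compl]
      exact (Finset.mem_sdiff.1 hw).2
    · by_contra hne
      exact hw' (Finset.mem_sdiff.2 ⟨hZ.supp t w hne, Finset.mem_compl.1 hw⟩)
  rw [h1, Finset.sum_congr rfl (fun w hw => hAB t ht w (Finset.mem_sdiff.1 hw).1 (Finset.mem_sdiff.1 hw).2),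
    Finset.sum_const, nsmul_eq_mul, mul_comm]

private theorem lr_le {N : n → Finset n} {Z : n → n → ℝ} (hZ : DS N Z) (B : Finset n) (t : n) :
    ∑ w ∈ Bᶜ, Z t w ≤ 1 := by
  rw [← hZ.row t]
  exact Finset.sum_le_sum_of_subset_of_nonneg (Finset.subset_univ _) (fun w _ _ => hZ.nonneg t w)

theorem reduction [Nonempty n] (N : n → Finset n) (hN : ∀ t, t ∈ N t) (e : ℝ) (he : 0 < e)
    (hW : ∑ t, (2 : ℝ) ^ (-e * ((N t).card : ℝ)) < 1 / 2) :
    (∃ Z : n → n → ℝ, DS N Z ∧ ∀ t w, Z t w ≤ e) ∨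
    ∃ (σ : Equiv.Perm n) (A' : Finset n), (∀ t, σ t ∈ N t) ∧ A'.Nonempty ∧ A' ≠ Finset.univ ∧
      ∑ t ∈ A', (2 : ℝ) ^ (-e * ((N t ∩ A'.image σ).card : ℝ)) ≤
        ∑ t, (2 : ℝ) ^ (-e * ((N t).card : ℝ)) := by
  obtain ⟨Z, m, hZ, hm, hle, ⟨t0, w0, h0⟩, hmin⟩ := exists_flat N hN
  by_cases hme : m ≤ e
  · exact Or.inl ⟨Z, hZ, fun t w => (hle t w).trans hme⟩
  right
  rw [not_le] at hme
  obtain ⟨A, B, hAB, hB, ht0, hw0⟩ := exists_cut N Z m hZ hm hle t0 w0 h0 hmin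
  set p : n → ℝ := fun t => (2 : ℝ) ^ (-e * ((N t).card : ℝ)) with hp
  have hp0 : ∀ t, 0 < p t := fun t => Real.rpow_pos_of_pos (by norm_num) _
  obtain ⟨σ, hσN, hσB, hsel⟩ := exists_sel N Z hZ A B hB p
  have himg : (A.filter (fun t => σ t ∈ B)).image σ = B := by
    ext w
    rw [Finset.mem_image]
    constructor
    · rintro ⟨t, ht, rfl⟩
      exact (Finset.mem_filter.1 ht).2
    · intro hw
      refine ⟨σ.symm w, ?_, σ.apply_symm_apply w⟩
      rw [Finset.mem_filter, σ.apply_symm_apply]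
      refine ⟨?_, hw⟩
      by_contra hcon
      have := hσB _ hcon
      rw [σ.apply_symm_apply] at this
      exact this hw
  have hcard : (A.filter (fun t => σ t ∈ B)).card = B.card := by
    have h1 := congrArg Finset.card himg
    rwa [Finset.card_image_of_injective _ σ.injective] at h1
  have hl : ∀ t ∈ A, m * ((N t \ B).card : ℝ) ≤ 1 := by
    intro t ht
    rw [← lr_row hZ hAB ht]
    exact lr_le hZ B t
  have hBne : B.Nonempty := by
    by_contra hcon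
    rw [Finset.not_nonempty_iff_eq_empty] at hcon
    have h1 := lr_row hZ hAB ht0
    rw [hcon, Finset.compl_empty, hZ.row t0, Finset.sdiff_empty] at h1
    have hc : (0 : ℝ) < ((N t0).card : ℝ) := by
      have : 0 < (N t0).card := Finset.card_pos.2 ⟨t0, hN t0⟩
      exact_mod_cast this
    have h2 : e * ((N t0).card : ℝ) < 1 := by
      have := mul_lt_mul_of_pos_right hme hc
      linarith
    have h3 : (1 / 2 : ℝ) < p t0 := by
      have h4 : (2 : ℝ) ^ (-1 : ℝ) < (2 : ℝ) ^ (-e * ((N t0).card : ℝ)) :=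
        Real.rpow_lt_rpow_of_exponent_lt (by norm_num) (by linarith)
      rw [Real.rpow_neg_one] at h4
      rw [one_div]
      exact h4
    have h5 : p t0 ≤ ∑ t, p t := Finset.single_le_sum (fun t _ => (hp0 t).le) (Finset.mem_univ t0)
    linarith
  refine ⟨σ, A.filter (fun t => σ t ∈ B), hσN, ?_, ?_, ?_⟩
  · rw [← Finset.card_pos, hcard, Finset.card_pos]
    exact hBne
  · intro huniv
    have h1 : (∑ t ∈ A, ∑ w, Z t w) = (A.card : ℝ) := by
      rw [Finset.sum_congr rfl (fun t _ => hZ.row t), Finset.sum_const, nsmul_eq_mul, mul_one]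
    have h2 : ∀ t, ∑ w, Z t w = ∑ w ∈ B, Z t w + ∑ w ∈ Bᶜ, Z t w := fun t =>
      (Finset.sum_add_sum_compl B _).symm
    have h3 : (∑ t ∈ A, ∑ w ∈ B, Z t w) = (B.card : ℝ) := by
      rw [Finset.sum_comm]
      have h4 : ∀ w ∈ B, ∑ t ∈ A, Z t w = 1 := by
        intro w hw
        rw [← hZ.col w]
        refine Finset.sum_subset (Finset.subset_univ _) (fun t _ ht => hB t ht w hw)
      rw [Finset.sum_congr rfl h4, Finset.sum_const, nsmul_eq_mul, mul_one]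
    have h5 : m ≤ ∑ t ∈ A, ∑ w ∈ Bᶜ, Z t w := by
      have h6 : Z t0 w0 ≤ ∑ w ∈ Bᶜ, Z t0 w :=
        Finset.single_le_sum (fun w _ => hZ.nonneg t0 w) (Finset.mem_compl.2 hw0)
      have h7 : (∑ w ∈ Bᶜ, Z t0 w) ≤ ∑ t ∈ A, ∑ w ∈ Bᶜ, Z t w :=
        Finset.single_le_sum (f := fun t => ∑ w ∈ Bᶜ, Z t w)
          (fun t _ => Finset.sum_nonneg (fun w _ => hZ.nonneg t w)) ht0
      rw [h0] at h6
      exact h6.trans h7
    have h8 : (A.card : ℝ) = (B.card : ℝ) + ∑ t ∈ A, ∑ w ∈ Bᶜ, Z t w := by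
      rw [← h1, ← h3, ← Finset.sum_add_distrib]
      exact Finset.sum_congr rfl (fun t _ => h2 t)
    have h9 : B.card < A.card := by
      have : (B.card : ℝ) < (A.card : ℝ) := by linarith
      exact_mod_cast this
    rw [← hcard, huniv] at h9
    exact absurd (Finset.card_le_card (Finset.subset_univ A)) (not_le.2 h9)
  · rw [himg]
    have hterm : ∀ t ∈ A.filter (fun t => σ t ∈ B), (2 : ℝ) ^ (-e * ((N t ∩ B).card : ℝ)) ≤
        p t + p t * ∑ w ∈ Bᶜ, Z t w := by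
      intro t ht
      have htA := (Finset.mem_filter.1 ht).1
      have h1 : ((N t).card : ℝ) = ((N t ∩ B).card : ℝ) + ((N t \ B).card : ℝ) := by
        exact_mod_cast (Finset.card_inter_add_card_sdiff (N t) B).symm
      have hl0 : (0 : ℝ) ≤ ((N t \ B).card : ℝ) := Nat.cast_nonneg _
      have h2 : e * ((N t \ B).card : ℝ) ≤ m * ((N t \ B).card : ℝ) :=
        mul_le_mul_of_nonneg_right hme.le hl0
      have h3 : (2 : ℝ) ^ (-e * ((N t ∩ B).card : ℝ)) = p t * (2 : ℝ) ^ (e * ((N t \ B).card : ℝ)) := by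
        rw [hp, ← Real.rpow_add (by norm_num), h1]
        congr 1
        ring
      have h4 := two_rpow_le (e * ((N t \ B).card : ℝ)) (by positivity) (h2.trans (hl t htA))
      rw [h3, lr_row hZ hAB htA]
      calc p t * (2 : ℝ) ^ (e * ((N t \ B).card : ℝ)) ≤ p t * (1 + e * ((N t \ B).card : ℝ)) :=
            mul_le_mul_of_nonneg_left h4 (hp0 t).le
        _ ≤ p t * (1 + m * ((N t \ B).card : ℝ)) :=
            mul_le_mul_of_nonneg_left (by linarith) (hp0 t).le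
        _ = p t + p t * (m * ((N t \ B).card : ℝ)) := by ring
    have hnn : ∀ t, 0 ≤ p t * ∑ w ∈ Bᶜ, Z t w := fun t =>
      mul_nonneg (hp0 t).le (Finset.sum_nonneg (fun w _ => hZ.nonneg t w))
    calc ∑ t ∈ A.filter (fun t => σ t ∈ B), (2 : ℝ) ^ (-e * ((N t ∩ B).card : ℝ))
        ≤ ∑ t ∈ A.filter (fun t => σ t ∈ B), (p t + p t * ∑ w ∈ Bᶜ, Z t w) := Finset.sum_le_sum hterm
      _ = ∑ t ∈ A.filter (fun t => σ t ∈ B), p t +
          ∑ t ∈ A.filter (fun t => σ t ∈ B), p t * ∑ w ∈ Bᶜ, Z t w := Finset.sum_add_distrib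
      _ ≤ ∑ t ∈ A.filter (fun t => σ t ∈ B), p t + ∑ t ∈ A, p t * ∑ w ∈ Bᶜ, Z t w := by
          have := Finset.sum_le_sum_of_subset_of_nonneg (Finset.filter_subset (fun t => σ t ∈ B) A)
            (fun t _ _ => hnn t)
          linarith
      _ ≤ ∑ t ∈ A.filter (fun t => σ t ∈ B), p t + ∑ t ∈ A.filter (fun t => σ t ∉ B), p t := by
          linarith
      _ = ∑ t ∈ A, p t := Finset.sum_filter_add_sum_filter_not A (fun t => σ t ∈ B) p
      _ ≤ ∑ t, p t := Finset.sum_le_sum_of_subset_of_nonneg (Finset.subset_univ _)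
          (fun t _ _ => (hp0 t).le)

end Pool.Agent.H3.K1
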