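import Pool.Agent.H3.K1.Col

/-!
# Lower bound for the sum over the orientations

`plc M A p` is the placement `t ↦ M (p t)` for `t ∈ A`, `t ↦ M t` otherwise; `ext M A Y` is `Y` on
`A × M(A)` and the identity matrix on the frozen edges.
PROOF. `low_one`: for `p` compatible with `k` let `q : Perm (Out k)`, `q a = mu (hat s a)`,
`s = plc M A p` (it maps `Out k` to itself, it is injective, the type is finite). Then
`∏ b, Amat (q b) b = ∏ b, wt (ext M A Y) b (hat s b)` and, since for every token `t` exactly one of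
`inl t`, `inr (s t)` is in `Out k` (bijection `Out k ≃ T`), this is `∏ t, ext M A Y t (s t) =
∏ t : A, Y t (p t)`. The map `p ↦ q` is injective (`hat s a = mu (q a)` on `Out k` determines `s`,
hence `p`); all terms of the permanent are `≥ 0`.
`low_two`: for a `p` with nonzero product, `plc M A p` is a placement along options (`hY`, `hM`), so
`Conn`, and `exists_col` gives two orientations `k` (values `true`, `false` at a fixed end) in
`Adm mu` compatible with it. Exchange the sums over `p` and `k`.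
-/

namespace Pool.Agent.H3.K1

open Finset

variable {T W : Type*} [Fintype T] [Fintype W] [DecidableEq T] [DecidableEq W]

/-- The permutation of the out-ends given by a placement compatible with the orientation. -/
def lwq (mu : T ⊕ W → T ⊕ W) (hinv : ∀ a, mu (mu a) = a) (s : T ≃ W) (k : T ⊕ W → Bool)
    (hk : ∀ a, k (mu a) = !k a) (hs : ∀ a, k (hat s a) = !k a) : Equiv.Perm (Out k) where
  toFun a := ⟨mu (hat s a.1), by rw [hk, hs, a.2]; rfl⟩
  invFun a := ⟨hat s (mu a.1), by rw [hs, hk, a.2]; rfl⟩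
  left_inv a := by
    apply Subtype.ext
    simp only [hinv, hat_hat]
  right_inv a := by
    apply Subtype.ext
    simp only [hinv, hat_hat]

/-- Every token owns exactly one out-end. -/
def lwe (s : T ≃ W) (k : T ⊕ W → Bool) (hs : ∀ a, k (hat s a) = !k a) : T ≃ Out k where
  toFun t := if h : k (Sum.inl t) = true then ⟨Sum.inl t, h⟩ else
    ⟨Sum.inr (s t), by
      have h2 := hs (Sum.inl t)
      rw [hat_inl] at h2
      rw [h2]
      simpa using h⟩
  invFun a := match a with
    | ⟨Sum.inl t, _⟩ => t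
    | ⟨Sum.inr w, _⟩ => s.symm w
  left_inv t := by
    by_cases h : k (Sum.inl t) = true
    · simp only [h, dite_true]
    · simp only [h, dite_false, Equiv.symm_apply_apply]
      simp
  right_inv a := by
    rcases a with ⟨t | w, ha⟩
    · simp only [ha, dite_true]
    · have h2 := hs (Sum.inr w)
      rw [hat_inr, ha] at h2
      have h3 : ¬ k (Sum.inl (s.symm w)) = true := by rw [h2]; simp
      simp only [h3, dite_false, Equiv.apply_symm_apply]
      simp

theorem lw_wte (s : T ≃ W) (k : T ⊕ W → Bool) (hs : ∀ a, k (hat s a) = !k a) (X : T → W → ℝ)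
    (t : T) : wt X (lwe s k hs t).1 (hat s (lwe s k hs t).1) = X t (s t) := by
  by_cases h : k (Sum.inl t) = true
  · have : (lwe s k hs t).1 = Sum.inl t := by simp [lwe, h]
    rw [this]; rfl
  · have : (lwe s k hs t).1 = Sum.inr (s t) := by simp [lwe, h]
    rw [this, hat_inr, Equiv.symm_apply_apply]; rfl

theorem lw_prodq (mu : T ⊕ W → T ⊕ W) (hinv : ∀ a, mu (mu a) = a) (s : T ≃ W) (k : T ⊕ W → Bool)
    (hk : ∀ a, k (mu a) = !k a) (hs : ∀ a, k (hat s a) = !k a) (X : T → W → ℝ) :
    ∏ b, Amat mu k X (lwq mu hinv s k hk hs b) b = ∏ t, X t (s t) := by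
  rw [← Equiv.prod_comp (lwe s k hs)]
  apply Finset.prod_congr rfl
  intro t _
  rw [← lw_wte s k hs X t]
  simp only [Amat, lwq, Equiv.coe_fn_mk, hinv]

theorem lw_prodext (M : T ≃ W) (A : Finset T) (Y : {t // t ∈ A} → {t // t ∈ A} → ℝ)
    (p : Equiv.Perm {t // t ∈ A}) :
    ∏ t, ext M A Y t (plc M A p t) = ∏ t, Y t (p t) := by
  have h1 : ∀ t : T, t ∉ A → ext M A Y t (plc M A p t) = 1 := by
    intro t ht
    have : plc M A p t = M t := by
      simp only [plc, Equiv.trans_apply, Equiv.Perm.ofSubtype_apply_of_not_mem p ht]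
    simp [ext, ht, this]
  have h2 : ∏ t ∈ A, ext M A Y t (plc M A p t) = ∏ t, ext M A Y t (plc M A p t) :=
    Finset.prod_subset (Finset.subset_univ A) (fun t _ ht => h1 t ht)
  rw [← h2, ← Finset.prod_coe_sort]
  apply Finset.prod_congr rfl
  intro t _
  have h3 : plc M A p t.1 = M (p t).1 := by
    simp only [plc, Equiv.trans_apply, Equiv.Perm.ofSubtype_apply_coe]
  have h4 : M.symm (M (p t).1) ∈ A := by
    rw [Equiv.symm_apply_apply]; exact (p t).2
  rw [h3]
  simp only [ext, t.2, dite_true, h4]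
  congr 1
  apply Subtype.ext
  simp

theorem lw_qinj (mu : T ⊕ W → T ⊕ W) (hinv : ∀ a, mu (mu a) = a) (k : T ⊕ W → Bool)
    (hk : ∀ a, k (mu a) = !k a) (s s' : T ≃ W) (hs : ∀ a, k (hat s a) = !k a)
    (hs' : ∀ a, k (hat s' a) = !k a)
    (h : lwq mu hinv s k hk hs = lwq mu hinv s' k hk hs') : s = s' := by
  have key : ∀ a : Out k, hat s a.1 = hat s' a.1 := by
    intro a
    have h1 : (lwq mu hinv s k hk hs a).1 = (lwq mu hinv s' k hk hs' a).1 := by rw [h]
    have h2 : mu (hat s a.1) = mu (hat s' a.1) := h1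
    have h3 := congrArg mu h2
    rwa [hinv, hinv] at h3
  ext t
  by_cases ht : k (Sum.inl t) = true
  · have h1 := key ⟨Sum.inl t, ht⟩
    simp only [hat_inl] at h1
    exact Sum.inr.inj h1
  · have h0 : k (Sum.inr (s t)) = true := by
      have h2 := hs (Sum.inl t)
      rw [hat_inl] at h2
      rw [h2]
      simpa using ht
    have h1 := key ⟨Sum.inr (s t), h0⟩
    simp only [hat_inr, Equiv.symm_apply_apply] at h1
    have h3 := Sum.inl.inj h1
    rw [h3, Equiv.apply_symm_apply]
    rw [← h3]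

theorem lw_plcinj (M : T ≃ W) (A : Finset T) (p p' : Equiv.Perm {t // t ∈ A})
    (h : plc M A p = plc M A p') : p = p' := by
  apply Equiv.Perm.ofSubtype_injective
  ext t
  have h1 : plc M A p t = plc M A p' t := by rw [h]
  exact M.injective h1

theorem lw_extnn (M : T ≃ W) (A : Finset T) (Y : {t // t ∈ A} → {t // t ∈ A} → ℝ)
    (hY : ∀ t t', 0 ≤ Y t t') (t : T) (w : W) : 0 ≤ ext M A Y t w := by
  unfold ext
  split_ifs
  · exact hY _ _
  · exact le_rfl
  · exact zero_le_one
  · exact le_rfl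

theorem lw_wtnn (X : T → W → ℝ) (hX : ∀ t w, 0 ≤ X t w) (a b : T ⊕ W) : 0 ≤ wt X a b := by
  rcases a with t | w <;> rcases b with t' | w'
  · exact le_rfl
  · exact hX _ _
  · exact hX _ _
  · exact le_rfl

theorem low_one (mu : T ⊕ W → T ⊕ W) (hinv : ∀ a, mu (mu a) = a) (M : T ≃ W) (A : Finset T)
    (Y : {t // t ∈ A} → {t // t ∈ A} → ℝ) (hY : ∀ t t', 0 ≤ Y t t') (k : T ⊕ W → Bool)
    (hk : ∀ a, k (mu a) = !k a) :
    ∑ p ∈ Finset.univ.filter
        (fun p : Equiv.Perm {t // t ∈ A} => ∀ a, k (hat (plc M A p) a) = !k a),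
      ∏ t, Y t (p t) ≤ (Amat mu k (ext M A Y)).permanent := by
  classical
  set F := Finset.univ.filter
        (fun p : Equiv.Perm {t // t ∈ A} => ∀ a, k (hat (plc M A p) a) = !k a) with hF
  let Q : Equiv.Perm {t // t ∈ A} → Equiv.Perm (Out k) := fun p =>
    if hp : ∀ a, k (hat (plc M A p) a) = !k a then lwq mu hinv (plc M A p) k hk hp else 1
  have hQinj : Set.InjOn Q (F : Set (Equiv.Perm {t // t ∈ A})) := by
    intro p hp p' hp' h
    have hp1 : ∀ a, k (hat (plc M A p) a) = !k a := by
      have := Finset.mem_coe.mp hp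
      rw [hF, Finset.mem_filter] at this
      exact this.2
    have hp1' : ∀ a, k (hat (plc M A p') a) = !k a := by
      have := Finset.mem_coe.mp hp'
      rw [hF, Finset.mem_filter] at this
      exact this.2
    simp only [Q] at h
    rw [dif_pos hp1, dif_pos hp1'] at h
    exact lw_plcinj M A p p' (lw_qinj mu hinv k hk _ _ hp1 hp1' h)
  have h1 : ∑ p ∈ F, ∏ t, Y t (p t) =
      ∑ σ ∈ F.image Q, ∏ b, Amat mu k (ext M A Y) (σ b) b := by
    rw [Finset.sum_image hQinj]
    apply Finset.sum_congr rfl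
    intro p hp
    have hp1 : ∀ a, k (hat (plc M A p) a) = !k a := by
      rw [hF, Finset.mem_filter] at hp
      exact hp.2
    simp only [Q]
    rw [dif_pos hp1, lw_prodq, lw_prodext]
  rw [h1]
  unfold Matrix.permanent
  apply Finset.sum_le_sum_of_subset_of_nonneg (Finset.subset_univ _)
  intro σ _ _
  apply Finset.prod_nonneg
  intro b _
  exact lw_wtnn _ (lw_extnn M A Y hY) _ _

theorem low_two [Nonempty T] (mu : T ⊕ W → T ⊕ W) (N : T → Finset W) (h : AH mu N) (M : T ≃ W)
    (hM : ∀ t, M t ∈ N t) (A : Finset T) (Y : {t // t ∈ A} → {t // t ∈ A} → ℝ)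
    (hY : ∀ t t', 0 ≤ Y t t') (hS : ∀ t t', Y t t' ≠ 0 → M t'.1 ∈ N t.1) :
    2 * ∑ p : Equiv.Perm {t // t ∈ A}, ∏ t, Y t (p t) ≤
      ∑ k ∈ Adm mu, (Amat mu k (ext M A Y)).permanent := by
  classical
  have h1 : ∑ k ∈ Adm mu, ∑ p ∈ Finset.univ.filter
        (fun p : Equiv.Perm {t // t ∈ A} => ∀ a, k (hat (plc M A p) a) = !k a),
      ∏ t, Y t (p t) ≤ ∑ k ∈ Adm mu, (Amat mu k (ext M A Y)).permanent := by
    apply Finset.sum_le_sum
    intro k hk
    exact low_one mu h.inv M A Y hY k (by
      rw [Adm, Finset.mem_filter] at hk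
      exact hk.2)
  refine le_trans ?_ h1
  simp only [Finset.sum_filter]
  rw [Finset.sum_comm, Finset.mul_sum]
  apply Finset.sum_le_sum
  intro p _
  have hnn : 0 ≤ ∏ t, Y t (p t) := Finset.prod_nonneg (fun t _ => hY _ _)
  by_cases h0 : ∏ t, Y t (p t) = 0
  · rw [h0]
    simp
  · have hne : ∀ t, Y t (p t) ≠ 0 := fun t => (Finset.prod_ne_zero_iff.mp h0) t (Finset.mem_univ t)
    have hpl : ∀ t, plc M A p t ∈ N t := by
      intro t
      by_cases ht : t ∈ A
      · have h3 : plc M A p t = M (p ⟨t, ht⟩).1 := by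
          have := Equiv.Perm.ofSubtype_apply_coe p ⟨t, ht⟩
          simp only [plc, Equiv.trans_apply]
          rw [← this]
        rw [h3]
        exact hS _ _ (hne ⟨t, ht⟩)
      · have h3 : plc M A p t = M t := by
          simp only [plc, Equiv.trans_apply, Equiv.Perm.ofSubtype_apply_of_not_mem p ht]
        rw [h3]
        exact hM t
    have hc := h.conn _ hpl
    obtain ⟨k1, hk1a, hk1b, hk1c⟩ := exists_col mu h.inv h.ne (plc M A p) hc
      (Sum.inl (Classical.arbitrary T)) true
    obtain ⟨k2, hk2a, hk2b, hk2c⟩ := exists_col mu h.inv h.ne (plc M A p) hc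
      (Sum.inl (Classical.arbitrary T)) false
    have hk12 : k1 ≠ k2 := by
      intro he
      rw [he, hk2c] at hk1c
      exact absurd hk1c (by decide)
    have hsub : ({k1, k2} : Finset (T ⊕ W → Bool)) ⊆ Adm mu := by
      intro k hk
      rw [Finset.mem_insert, Finset.mem_singleton] at hk
      rw [Adm, Finset.mem_filter]
      rcases hk with rfl | rfl
      · exact ⟨Finset.mem_univ _, hk1a⟩
      · exact ⟨Finset.mem_univ _, hk2a⟩
    have h5 : ∑ k ∈ ({k1, k2} : Finset (T ⊕ W → Bool)),
        (if ∀ a, k (hat (plc M A p) a) = !k a then ∏ t, Y t (p t) else 0) ≤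
        ∑ k ∈ Adm mu, (if ∀ a, k (hat (plc M A p) a) = !k a then ∏ t, Y t (p t) else 0) := by
      apply Finset.sum_le_sum_of_subset_of_nonneg hsub
      intro k _ _
      split_ifs
      · exact hnn
      · exact le_rfl
    refine le_trans (le_of_eq ?_) h5
    rw [Finset.sum_pair hk12, if_pos hk1b, if_pos hk2b]
    ring

end Pool.Agent.H3.K1
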