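import Pool.Agent.H3.K1.PartA
import Pool.Agent.H3.K1.LemR

/-!
# The Kraft inequality for all-Hamiltonian systems

PROOF. `kraft_aux`, strong induction on `|A|`: suppose the sum is `< 1/2`. On the type `{t // t ∈ A}`
put `N' t = {t' | M t' ∈ N t}` (`t ∈ N' t`); `|N' t| = |N t ∩ M(A)|`. `reduction` with `e = 1/30`.
First alternative: `not_spread`. Second alternative `σ, A'`: let `M' = plc M A σ`
(`t ↦ M (σ t)` on `A`, `M` outside), a placement along options, and `A'' = A'` as a subset of `T`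
(`A'.map (Function.Embedding.subtype _)`), `|A''| < |A|`. `N t ∩ M'(A'') ` corresponds to
`N' t ∩ σ(A')`, so the sum for `(A'', M')` is `< 1/2`, contradiction to the induction hypothesis.
`kraft`: `A = univ`. `kraft_deg`: all degrees `≥ D`.
-/

namespace Pool.Agent.H3.K1

open Finset

variable {T W : Type*} [Fintype T] [Fintype W] [DecidableEq T] [DecidableEq W]

omit [Fintype T] [Fintype W] in
private theorem card_opt (M : T ≃ W) (A : Finset T) (S : Finset W) (B : Finset {t // t ∈ A}) :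
    ((Finset.univ.filter fun t' : {t // t ∈ A} => M t'.1 ∈ S) ∩ B).card =
      (S ∩ (B.map (Function.Embedding.subtype _)).image M).card := by
  have hinj : Function.Injective (fun t' : {t // t ∈ A} => M t'.1) := fun a b hab =>
    Subtype.ext (M.injective hab)
  rw [← Finset.card_image_of_injective _ hinj]
  congr 1
  ext w
  simp only [Finset.mem_image, Finset.mem_inter, Finset.mem_filter, Finset.mem_univ, true_and,
    Finset.mem_map, Function.Embedding.coe_subtype]
  constructor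
  · rintro ⟨a, ⟨h1, h2⟩, rfl⟩
    exact ⟨h1, a.1, ⟨a, h2, rfl⟩, rfl⟩
  · rintro ⟨h1, _, ⟨a, h2, rfl⟩, rfl⟩
    exact ⟨a, ⟨h1, h2⟩, rfl⟩

theorem kraft_aux (mu : T ⊕ W → T ⊕ W) (N : T → Finset W) (h : AH mu N) (m : ℕ) (M : T ≃ W)
    (hM : ∀ t, M t ∈ N t) (A : Finset T) (hA : A.Nonempty) (hm : A.card = m) :
    1 / 2 ≤ ∑ t ∈ A, (2 : ℝ) ^ (-(1 / 30) * ((N t ∩ A.image M).card : ℝ)) := by
  induction m using Nat.strong_induction_on generalizing M A with
  | _ m ih =>
  by_contra hcon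
  rw [not_le] at hcon
  have : Nonempty {t // t ∈ A} := hA.to_subtype
  obtain ⟨N', hN'⟩ : ∃ N' : {t // t ∈ A} → Finset {t // t ∈ A},
      N' = fun t => Finset.univ.filter (fun t' => M t'.1 ∈ N t.1) := ⟨_, rfl⟩
  have hmem : ∀ t t', t' ∈ N' t ↔ M t'.1 ∈ N t.1 := by
    intro t t'
    rw [hN']
    simp
  have hcard : ∀ t : {t // t ∈ A}, (N' t).card = (N t.1 ∩ A.image M).card := by
    intro t
    have h1 := card_opt M A (N t.1) Finset.univ
    rw [Finset.inter_univ] at h1
    rw [hN']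
    rw [h1]
    congr 3
    ext x
    simp
  have hW : ∑ t, (2 : ℝ) ^ (-(1 / 30) * ((N' t).card : ℝ)) < 1 / 2 := by
    simp_rw [hcard]
    rw [Finset.sum_coe_sort A
      (fun t => (2 : ℝ) ^ (-(1 / 30) * ((N t ∩ A.image M).card : ℝ)))]
    exact hcon
  rcases reduction N' (fun t => (hmem t t).2 (hM t.1)) (1 / 30) (by norm_num) hW with
    ⟨Z, hZ, hle⟩ | ⟨σ, A', hσ, hne, hnu, hs⟩
  · exact not_spread mu N h M hM A hA Z hZ.nonneg
      (fun t t' hh => (hmem t t').1 (hZ.supp t t' hh)) hZ.row hZ.col hle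
  · have hin : ∀ t : {t // t ∈ A}, plc M A σ t.1 = M (σ t).1 := by
      intro t
      show M (Equiv.Perm.ofSubtype σ t.1) = _
      rw [Equiv.Perm.ofSubtype_apply_coe]
    have hout : ∀ t, t ∉ A → plc M A σ t = M t := by
      intro t ht
      show M (Equiv.Perm.ofSubtype σ t) = _
      rw [Equiv.Perm.ofSubtype_apply_of_not_mem σ ht]
    have hM' : ∀ t, plc M A σ t ∈ N t := by
      intro t
      by_cases ht : t ∈ A
      · have h1 := (hmem _ _).1 (hσ ⟨t, ht⟩)
        rw [← hin ⟨t, ht⟩] at h1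
        exact h1
      · rw [hout t ht]
        exact hM t
    have hlt : (A'.map (Function.Embedding.subtype (· ∈ A))).card < m := by
      rw [Finset.card_map, ← hm]
      have h1 : A'.card < (Finset.univ : Finset {t // t ∈ A}).card :=
        Finset.card_lt_card (Finset.ssubset_univ_iff.2 hnu)
      simpa using h1
    have key := ih _ hlt (plc M A σ) hM' (A'.map (Function.Embedding.subtype _))
      (by simpa using hne) rfl
    have hsum : ∑ t ∈ A'.map (Function.Embedding.subtype (· ∈ A)),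
        (2 : ℝ) ^ (-(1 / 30) * ((N t ∩ (A'.map (Function.Embedding.subtype (· ∈ A))).image
          (plc M A σ)).card : ℝ)) =
        ∑ t ∈ A', (2 : ℝ) ^ (-(1 / 30) * ((N' t ∩ A'.image σ).card : ℝ)) := by
      rw [Finset.sum_map]
      refine Finset.sum_congr rfl fun t _ => ?_
      have h1 := card_opt M A (N t.1) (A'.image σ)
      rw [hN']
      rw [h1]
      congr 5
      ext w
      simp only [Finset.mem_image, Finset.mem_map, Function.Embedding.coe_subtype]
      constructor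
      · rintro ⟨_, ⟨a, ha, rfl⟩, rfl⟩
        exact ⟨(σ a).1, ⟨σ a, ⟨a, ha, rfl⟩, rfl⟩, (hin a).symm⟩
      · rintro ⟨_, ⟨_, ⟨a, ha, rfl⟩, rfl⟩, rfl⟩
        exact ⟨a.1, ⟨a, ha, rfl⟩, hin a⟩
    rw [hsum] at key
    linarith

/-- Weak Kraft inequality for all-Hamiltonian systems with arbitrary links. -/
theorem kraft [Nonempty T] (mu : T ⊕ W → T ⊕ W) (N : T → Finset W) (h : AH mu N) (M : T ≃ W)
    (hM : ∀ t, M t ∈ N t) :
    1 / 2 ≤ ∑ t, (2 : ℝ) ^ (-(1 / 30) * ((N t).card : ℝ)) := by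
  have h1 := kraft_aux mu N h _ M hM Finset.univ Finset.univ_nonempty rfl
  have h2 : (Finset.univ : Finset T).image M = Finset.univ :=
    Finset.image_univ_of_surjective M.surjective
  simpa [h2] using h1

theorem kraft_deg [Nonempty T] (mu : T ⊕ W → T ⊕ W) (N : T → Finset W) (h : AH mu N) (M : T ≃ W)
    (hM : ∀ t, M t ∈ N t) (D : ℕ) (hD : ∀ t, D ≤ (N t).card) :
    (2 : ℝ) ^ ((D : ℝ) / 30) ≤ 2 * Fintype.card T := by
  have h1 := kraft mu N h M hM
  have h2 : ∑ t, (2 : ℝ) ^ (-(1 / 30) * ((N t).card : ℝ)) ≤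
      ∑ _t : T, (2 : ℝ) ^ (-((D : ℝ) / 30)) := by
    refine Finset.sum_le_sum fun t _ => ?_
    refine Real.rpow_le_rpow_of_exponent_le (by norm_num) ?_
    have h3 : (D : ℝ) ≤ ((N t).card : ℝ) := by exact_mod_cast hD t
    linarith
  rw [Finset.sum_const, nsmul_eq_mul, Real.rpow_neg (by norm_num)] at h2
  have h4 : (0 : ℝ) < (2 : ℝ) ^ ((D : ℝ) / 30) := Real.rpow_pos_of_pos (by norm_num) _
  have h5 : (1 : ℝ) / 2 ≤ (Fintype.card T : ℝ) * ((2 : ℝ) ^ ((D : ℝ) / 30))⁻¹ := by
    refine h1.trans (h2.trans (le_of_eq ?_))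
    simp
  have h6 := mul_le_mul_of_nonneg_right h5 h4.le
  rw [mul_assoc, inv_mul_cancel₀ h4.ne', mul_one] at h6
  linarith

end Pool.Agent.H3.K1
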