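import Pool.Agent.H3.K1.Defs

/-!
# The flattest doubly stochastic matrix on `N`

PROOF. The set `{Z | DS N Z}` in `n → n → ℝ` is nonempty (`Z t w = if w = t then 1 else 0`), closed
and bounded (entries in `[0,1]`), hence compact; let `m` be the minimum of the continuous function
`Z ↦ max_{t,w} Z t w` (`Finset.sup'`, or `‖Z‖` in the sup norm). Among the `Z` with `DS N Z` and all
entries `≤ m` choose one with the least number of entries equal to `m` (that set of numbers is
nonempty). `m > 0` because rows sum to `1`. By minimality of `m` every such `Z` has an entry `m`.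
If `Z'` has `DS N Z'`, all entries `≤ m` and its entries equal to `m` are among those of `Z`,
then by minimality of the number the two sets of entries are equal.
-/

namespace Pool.Agent.H3.K1

open Finset

variable {n : Type*} [Fintype n] [DecidableEq n]

private theorem mE_le_one {N : n → Finset n} {Z : n → n → ℝ} (h : DS N Z) (t w : n) :
    Z t w ≤ 1 := by
  rw [← h.row t]
  exact Finset.single_le_sum (f := fun w => Z t w) (fun w _ => h.nonneg t w) (Finset.mem_univ w)

private theorem mE_closed (N : n → Finset n) : IsClosed {Z : n → n → ℝ | DS N Z} := by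
  have e : {Z : n → n → ℝ | DS N Z} =
      (({Z | ∀ t w, 0 ≤ Z t w} ∩ {Z | ∀ t, ∑ w, Z t w = 1}) ∩ {Z | ∀ w, ∑ t, Z t w = 1}) ∩
        {Z | ∀ t w, w ∉ N t → Z t w = 0} := by
    ext Z
    constructor
    · intro h
      refine ⟨⟨⟨h.nonneg, h.row⟩, h.col⟩, ?_⟩
      intro t w hw
      by_contra hne
      exact hw (h.supp t w hne)
    · rintro ⟨⟨⟨h1, h2⟩, h3⟩, h4⟩
      refine ⟨h1, h2, h3, ?_⟩
      intro t w hne
      by_contra hw
      exact hne (h4 t w hw)
  rw [e]
  refine ((IsClosed.inter ?_ ?_).inter ?_).inter ?_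
  · simp only [Set.ofPred_forall]
    exact isClosed_iInter fun t => isClosed_iInter fun w =>
      isClosed_le continuous_const (by fun_prop)
  · simp only [Set.ofPred_forall]
    exact isClosed_iInter fun t => isClosed_eq (by fun_prop) continuous_const
  · simp only [Set.ofPred_forall]
    exact isClosed_iInter fun t => isClosed_eq (by fun_prop) continuous_const
  · simp only [Set.ofPred_forall]
    exact isClosed_iInter fun t => isClosed_iInter fun w => isClosed_iInter fun _ =>
      isClosed_eq (by fun_prop) continuous_const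

private theorem mE_compact (N : n → Finset n) : IsCompact {Z : n → n → ℝ | DS N Z} := by
  refine (isCompact_Icc (a := (0 : n → n → ℝ)) (b := 1)).of_isClosed_subset (mE_closed N) ?_
  intro Z hZ
  exact ⟨fun t w => hZ.nonneg t w, fun t w => mE_le_one hZ t w⟩

private theorem mE_id (N : n → Finset n) (hN : ∀ t, t ∈ N t) :
    DS N (fun t w => if w = t then (1 : ℝ) else 0) := by
  refine ⟨?_, ?_, ?_, ?_⟩
  · intro t w
    split_ifs <;> norm_num
  · intro t
    simp
  · intro w
    simp
  · intro t w h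
    by_cases e : w = t
    · rw [e]; exact hN t
    · simp [e] at h

theorem exists_flat [Nonempty n] (N : n → Finset n) (hN : ∀ t, t ∈ N t) :
    ∃ (Z : n → n → ℝ) (m : ℝ), DS N Z ∧ 0 < m ∧ (∀ t w, Z t w ≤ m) ∧ (∃ t w, Z t w = m) ∧
      ∀ Z' : n → n → ℝ, DS N Z' → (∀ t w, Z' t w ≤ m) → (∀ t w, Z' t w = m → Z t w = m) →
        ∀ t w, Z t w = m → Z' t w = m := by
  classical
  obtain ⟨Z0, hZ0, hmin⟩ := (mE_compact N).exists_isMinOn (f := fun Z => ‖Z‖) ⟨_, mE_id N hN⟩
    continuous_norm.continuousOn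
  have hle : ∀ Z : n → n → ℝ, DS N Z → ∀ t w, Z t w ≤ ‖Z‖ := by
    intro Z hZ t w
    calc Z t w = ‖Z t w‖ := (Real.norm_of_nonneg (hZ.nonneg t w)).symm
      _ ≤ ‖Z t‖ := norm_le_pi_norm (Z t) w
      _ ≤ ‖Z‖ := norm_le_pi_norm Z t
  have hm : 0 < ‖Z0‖ := by
    rcases (norm_nonneg Z0).eq_or_lt with h | h
    · exfalso
      have h0 : Z0 = 0 := norm_eq_zero.mp h.symm
      obtain ⟨t⟩ := ‹Nonempty n›
      have := hZ0.row t
      rw [h0] at this
      simp at this
    · exact h
  have hex : ∃ k : ℕ, ∃ Z : n → n → ℝ, DS N Z ∧ (∀ t w, Z t w ≤ ‖Z0‖) ∧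
      (Finset.univ.filter fun p : n × n => Z p.1 p.2 = ‖Z0‖).card = k :=
    ⟨_, Z0, hZ0, hle Z0 hZ0, rfl⟩
  obtain ⟨Z, hZ, hZle, hZc⟩ := Nat.find_spec hex
  refine ⟨Z, ‖Z0‖, hZ, hm, hZle, ?_, ?_⟩
  · by_contra hno
    push Not at hno
    have hlt : ∀ t w, Z t w < ‖Z0‖ := fun t w => lt_of_le_of_ne (hZle t w) (hno t w)
    have : ‖Z‖ < ‖Z0‖ := by
      rw [pi_norm_lt_iff hm]
      intro t
      rw [pi_norm_lt_iff hm]
      intro w
      rw [Real.norm_of_nonneg (hZ.nonneg t w)]
      exact hlt t w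
    exact absurd (hmin hZ) (not_le.mpr this)
  · intro Z' hZ' hle' hsub t w htw
    have hs : (Finset.univ.filter fun p : n × n => Z' p.1 p.2 = ‖Z0‖) ⊆
        (Finset.univ.filter fun p : n × n => Z p.1 p.2 = ‖Z0‖) := by
      intro p hp
      rw [Finset.mem_filter] at hp ⊢
      exact ⟨hp.1, hsub _ _ hp.2⟩
    have hc : (Finset.univ.filter fun p : n × n => Z p.1 p.2 = ‖Z0‖).card ≤
        (Finset.univ.filter fun p : n × n => Z' p.1 p.2 = ‖Z0‖).card := by
      rw [hZc]
      exact Nat.find_min' hex ⟨Z', hZ', hle', rfl⟩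
    have he := Finset.eq_of_subset_of_card_le hs hc
    have hmem : (t, w) ∈ (Finset.univ.filter fun p : n × n => Z p.1 p.2 = ‖Z0‖) := by
      rw [Finset.mem_filter]
      exact ⟨Finset.mem_univ _, htw⟩
    rw [← he, Finset.mem_filter] at hmem
    exact hmem.2

end Pool.Agent.H3.K1
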