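import Pool.Agent.H3.K1.DmA
import Pool.Agent.H3.K1.DmB

/-!
# Mixed permanents do not vanish on the right half plane

PROOF (Gurvits, simplified). Induction on `|Sᶜ|`. `S = univ`: `Dm_univ`, the product of the `v i`
is not `0`. Step: `k ∉ S'`, `S' = S.erase k` with `S = insert k S'`; the claim is known for `S`. Let
`P` be the polynomial of `Dm_poly` for `S, a, v, k` over `ℂ`, `m = |S| ≥ 1`. `P.coeff m =
Dm S a (a_k)` is the image of a positive real (`Dm_map`, `Dm_pos`), so `natDegree P = m`, `P ≠ 0`.
A root `ζ` with `Re ζ ≥ 0` is impossible, because `v i + ζ * a i k` has positive real part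
(`a i k > 0` real) and the claim holds for `S`. So all roots have `Re ζ < 0`. `P(0) = Dm S a v ≠ 0`
(claim for `S`). `P'(0)/P(0) = ∑_{roots} 1/(0-ζ)`
(`Polynomial.eval_derivative_div_eval_of_ne_zero_of_splits` or write `P = C c * ∏ (X - ζ)`), each
`-1/ζ` has positive real part and there are `m ≥ 1` roots; so `P'(0) = P.coeff 1 ≠ 0`, and
`P.coeff 1 = m * Dm S' a v`.
-/

namespace Pool.Agent.H3.K1

open Finset

variable {n : Type*} [Fintype n] [DecidableEq n]

private theorem nv_root {z : ℂ} (hz : z.re < 0) : 0 < (1 / (0 - z)).re := by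
  have hz0 : z ≠ 0 := by
    rintro rfl
    simp at hz
  have h1 : 0 < Complex.normSq (0 - z) := by
    rw [Complex.normSq_pos]
    simpa using hz0
  rw [one_div, Complex.inv_re]
  have h2 : 0 < (0 - z).re := by
    rw [Complex.sub_re, Complex.zero_re]
    linarith
  exact div_pos h2 h1

private theorem nv_sum (s : Multiset ℂ) (hs : s ≠ 0) (h : ∀ z ∈ s, z.re < 0) :
    0 < ((s.map fun z => 1 / (0 - z)).sum).re := by
  induction s using Multiset.induction with
  | empty => exact absurd rfl hs
  | cons a s ih =>
    rw [Multiset.map_cons, Multiset.sum_cons, Complex.add_re]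
    have h1 := nv_root (h a (Multiset.mem_cons_self a s))
    by_cases h2 : s = 0
    · subst h2
      simpa using h1
    · have h3 := ih h2 (fun z hz => h z (Multiset.mem_cons_of_mem hz))
      linarith

private theorem nv_step (a : Matrix n n ℝ) (ha : ∀ i j, 0 < a i j) (S : Finset n) (k : n)
    (hk : k ∈ S) (ih : ∀ v : n → ℂ, (∀ i, 0 < (v i).re) → Dm S (fun i j => (a i j : ℂ)) v ≠ 0)
    (v : n → ℂ) (hv : ∀ i, 0 < (v i).re) :
    Dm (S.erase k) (fun i j => (a i j : ℂ)) v ≠ 0 := by
  obtain ⟨P, hdeg, hev, hlead, hc0, hc1⟩ := Dm_poly S (fun i j => (a i j : ℂ)) v k hk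
  have hm : 0 < S.card := Finset.card_pos.mpr ⟨k, hk⟩
  have hl : P.coeff S.card ≠ 0 := by
    rw [hlead]
    have h1 := Dm_map S a (fun i => a i k)
    rw [h1]
    have h2 := Dm_pos S a (fun i => a i k) ha (fun i => ha i k)
    exact_mod_cast h2.ne'
  have hP0 : P ≠ 0 := by
    rintro rfl
    simp at hl
  have hnd : P.natDegree = S.card := le_antisymm hdeg (Polynomial.le_natDegree_of_ne_zero hl)
  have hroots : ∀ z ∈ P.roots, z.re < 0 := by
    intro z hz
    by_contra hcon
    push Not at hcon
    have h1 : P.eval z = 0 := (Polynomial.mem_roots hP0).mp hz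
    rw [hev] at h1
    refine ih _ (fun i => ?_) h1
    rw [Complex.add_re, Complex.mul_re, Complex.ofReal_re, Complex.ofReal_im, mul_zero, sub_zero]
    have h2 := mul_nonneg hcon (ha i k).le
    have h3 := hv i
    linarith
  have hP00 : P.eval 0 ≠ 0 := by
    rw [← Polynomial.coeff_zero_eq_eval_zero, hc0]
    exact ih v hv
  have hsp := IsAlgClosed.splits P
  have hcardr : P.roots.card = S.card := by rw [← hsp.natDegree_eq_card_roots, hnd]
  have hrne : P.roots ≠ 0 := by
    intro h0
    rw [h0, Multiset.card_zero] at hcardr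
    omega
  have hder := hsp.eval_derivative_div_eval_of_ne_zero hP00
  have hpos := nv_sum P.roots hrne hroots
  rw [← hder] at hpos
  intro hz
  rw [hz, mul_zero] at hc1
  have h5 : (Polynomial.derivative P).eval 0 = 0 := by
    rw [← Polynomial.coeff_zero_eq_eval_zero, Polynomial.coeff_derivative]
    simp [hc1]
  rw [h5, zero_div] at hpos
  simp at hpos

theorem Dm_ne_zero (a : Matrix n n ℝ) (ha : ∀ i j, 0 < a i j) (S : Finset n) (v : n → ℂ)
    (hv : ∀ i, 0 < (v i).re) : Dm S (fun i j => (a i j : ℂ)) v ≠ 0 := by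
  obtain ⟨m, hm⟩ : ∃ m, (Finset.univ \ S).card = m := ⟨_, rfl⟩
  induction m generalizing S v with
  | zero =>
    have h1 : S = Finset.univ := by
      rw [Finset.card_eq_zero, Finset.sdiff_eq_empty_iff_subset] at hm
      exact Finset.univ_subset_iff.mp hm
    subst h1
    refine ne_of_eq_of_ne (Dm_univ _ _) ?_
    refine mul_ne_zero (by exact_mod_cast Nat.factorial_ne_zero _) ?_
    rw [Finset.prod_ne_zero_iff]
    intro i _ h0
    have h2 := hv i
    rw [h0] at h2
    simp at h2
  | succ m ih =>
    have hne : (Finset.univ \ S).Nonempty := by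
      rw [← Finset.card_pos, hm]
      omega
    obtain ⟨k, hk⟩ := hne
    have hkS : k ∉ S := (Finset.mem_sdiff.mp hk).2
    have h1 : (Finset.univ \ insert k S).card = m := by
      have h2 : Finset.univ \ insert k S = (Finset.univ \ S).erase k := by
        ext j
        simp only [Finset.mem_sdiff, Finset.mem_univ, true_and, Finset.mem_insert, not_or,
          Finset.mem_erase]
      rw [h2, Finset.card_erase_of_mem hk, hm]
      rfl
    have h3 := nv_step a ha (insert k S) k (Finset.mem_insert_self k S)
      (fun v hv => ih (insert k S) v hv h1) v hv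
    rwa [Finset.erase_insert hkS] at h3

end Pool.Agent.H3.K1
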