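import Pool.Agent.H3.K1.Sgn
import Pool.Agent.H3.K1.Hdm

/-!
# Upper bound for each orientation

PROOF. `up_zero`: there is `t ∉ A` with `k (inr (M t)) = k (inl t)`. If both are `true`: column
`b = inl t` of `Amat`: the entry at `a` is `wt (ext ..) (inl t) (mu a)`, nonzero only for
`mu a = inr (M t)`, but `k (mu a) = false`. So the column is zero. If both are `false`: then
`a := mu (inl t) ∈ Out k`, and row `a`: the entry at `b` is `wt (ext ..) b (inl t)`, nonzero only for
`b = inr (M t)`, which is not in `Out k`. A zero row or column gives permanent `0`.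
`up_card`: `Out k` has `card T` elements (`mu` is a bijection `{k = true} → {k = false}`, and
`card (T ⊕ W) = 2 card T`), and the frozen ends (`inl t`, `inr (M t)`, `t ∉ A`) in `Out k` are
exactly one of each pair, `card T - |A|` in number.
`up_bound`: `perm_eq_abs_det` for `X = ext M A Y` and `N`: `ext` is `≥ 0`, supported on `N`
(`hS`, `hM`). `hadamard` with `r b = sqrt e` for non-frozen `b`, `1` for frozen `b`: the square sum
of the column `b` is `∑_a wt X b (mu a)^2 ≤` (injectivity of `mu`) `∑_{x} wt X b x ^2`, which is for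
`b = inl t`, `t ∈ A`: `∑_{t'} (Y t t')^2 ≤ e ∑ Y t t' = e`; for `b = inr w`, `M.symm w ∈ A`:
`∑_{t} (Y t (M.symm w))^2 ≤ e` (other tokens have entry `0`); for frozen `b` it is `1`. By `up_card`
the product of the `r b` is `(sqrt e)^|A|`.
-/

namespace Pool.Agent.H3.K1

open Finset

variable {T W : Type*} [Fintype T] [Fintype W] [DecidableEq T] [DecidableEq W]

/-- The ends which are not frozen. -/
def Free (M : T ≃ W) (A : Finset T) : T ⊕ W → Prop
  | Sum.inl t => t ∈ A
  | Sum.inr w => M.symm w ∈ A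

instance (M : T ≃ W) (A : Finset T) : DecidablePred (Free M A) := fun a => by
  rcases a with t | w <;> (unfold Free; infer_instance)

private theorem up_perm_col {m : Type*} [Fintype m] [DecidableEq m] (B : Matrix m m ℝ) (j : m)
    (h : ∀ i, B i j = 0) : B.permanent = 0 := by
  unfold Matrix.permanent
  refine Finset.sum_eq_zero fun σ _ => ?_
  exact Finset.prod_eq_zero (Finset.mem_univ j) (h (σ j))

private theorem up_perm_row {m : Type*} [Fintype m] [DecidableEq m] (B : Matrix m m ℝ) (i : m)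
    (h : ∀ j, B i j = 0) : B.permanent = 0 := by
  unfold Matrix.permanent
  refine Finset.sum_eq_zero fun σ _ => ?_
  refine Finset.prod_eq_zero (Finset.mem_univ (σ.symm i)) ?_
  rw [Equiv.apply_symm_apply]
  exact h _

theorem up_zero (mu : T ⊕ W → T ⊕ W) (hinv : ∀ a, mu (mu a) = a) (M : T ≃ W) (A : Finset T)
    (Y : {t // t ∈ A} → {t // t ∈ A} → ℝ) (k : T ⊕ W → Bool) (hk : ∀ a, k (mu a) = !k a)
    (hF : ¬ ∀ t, t ∉ A → k (Sum.inr (M t)) = !k (Sum.inl t)) :
    (Amat mu k (ext M A Y)).permanent = 0 := by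
  push Not at hF
  obtain ⟨t, ht, hkt⟩ := hF
  have hkt' : k (Sum.inr (M t)) = k (Sum.inl t) := by
    revert hkt
    cases k (Sum.inr (M t)) <;> cases k (Sum.inl t) <;> simp
  by_cases hb : k (Sum.inl t) = true
  · refine up_perm_col _ ⟨Sum.inl t, hb⟩ fun a => ?_
    unfold Amat
    rcases hma : mu a.1 with t' | w
    · simp only [hma, wt]
    · simp only [hma, wt, ext, dif_neg ht]
      refine if_neg fun hw => ?_
      have h1 := hk a.1
      rw [hma, hw, hkt', hb, a.2] at h1
      simp at h1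
  · have hb' : k (Sum.inl t) = false := by
      revert hb
      cases k (Sum.inl t) <;> simp
    refine up_perm_row _ ⟨mu (Sum.inl t), by rw [hk, hb']; rfl⟩ fun b => ?_
    unfold Amat
    simp only [hinv]
    obtain ⟨b, hb2⟩ := b
    rcases b with t' | w
    · simp only [wt]
    · simp only [wt, ext, dif_neg ht]
      refine if_neg fun hw => ?_
      rw [hw, hkt', hb'] at hb2
      simp at hb2

private theorem up_total (mu : T ⊕ W → T ⊕ W) (hinv : ∀ a, mu (mu a) = a) (M : T ≃ W)
    (k : T ⊕ W → Bool) (hk : ∀ a, k (mu a) = !k a) :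
    ∑ t, ((if k (Sum.inl t) = true then 1 else 0) + (if k (Sum.inr (M t)) = true then 1 else 0)) =
      Fintype.card T := by
  let e : Equiv.Perm (T ⊕ W) := ⟨mu, mu, hinv, hinv⟩
  have h1 : ∑ a, (if k (mu a) = true then 1 else 0) = ∑ a, (if k a = true then 1 else 0) :=
    Equiv.sum_comp e (fun a => if k a = true then 1 else 0)
  have h2 : ∑ a, ((if k a = true then 1 else 0) + (if k (mu a) = true then 1 else 0)) =
      Fintype.card (T ⊕ W) := by
    have h3 : ∀ a, ((if k a = true then 1 else 0) + (if k (mu a) = true then 1 else 0)) = 1 := by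
      intro a
      rw [hk a]
      cases k a <;> simp
    rw [Finset.sum_congr rfl fun a _ => h3 a, Finset.sum_const, Finset.card_univ, smul_eq_mul,
      mul_one]
  rw [Finset.sum_add_distrib, h1, Fintype.card_sum, ← Fintype.card_congr M] at h2
  have h4 : ∑ a, (if k a = true then 1 else 0) =
      ∑ t, (if k (Sum.inl t) = true then 1 else 0) +
        ∑ w, (if k (Sum.inr w) = true then 1 else 0) := Fintype.sum_sum_type _
  have h5 : ∑ w, (if k (Sum.inr w) = true then 1 else 0) =
      ∑ t, (if k (Sum.inr (M t)) = true then 1 else 0) :=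
    (Equiv.sum_comp M (fun w => if k (Sum.inr w) = true then 1 else 0)).symm
  rw [Finset.sum_add_distrib, ← h5, ← h4]
  omega

theorem up_card (mu : T ⊕ W → T ⊕ W) (hinv : ∀ a, mu (mu a) = a) (M : T ≃ W) (A : Finset T)
    (k : T ⊕ W → Bool) (hk : ∀ a, k (mu a) = !k a)
    (hF : ∀ t, t ∉ A → k (Sum.inr (M t)) = !k (Sum.inl t)) :
    (Finset.univ.filter (fun b : Out k => Free M A b.1)).card = A.card := by
  classical
  have h1 : (Finset.univ.filter (fun b : Out k => Free M A b.1)).card =
      (Finset.univ.filter (fun a : T ⊕ W => k a = true ∧ Free M A a)).card := by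
    refine Finset.card_bij (fun b _ => b.1) ?_ ?_ ?_
    · intro b hb
      rw [Finset.mem_filter] at hb ⊢
      exact ⟨Finset.mem_univ _, b.2, hb.2⟩
    · intro b _ b' _ h
      exact Subtype.ext h
    · intro a ha
      rw [Finset.mem_filter] at ha
      exact ⟨⟨a, ha.2.1⟩, Finset.mem_filter.mpr ⟨Finset.mem_univ _, ha.2.2⟩, rfl⟩
  rw [h1, Finset.card_filter, Fintype.sum_sum_type]
  have h2 : ∑ w, (if k (Sum.inr w) = true ∧ Free M A (Sum.inr w) then 1 else 0) =
      ∑ t, (if k (Sum.inr (M t)) = true ∧ t ∈ A then 1 else 0) := by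
    rw [← Equiv.sum_comp M]
    refine Finset.sum_congr rfl fun t _ => ?_
    have h3 : Free M A (Sum.inr (M t)) ↔ t ∈ A := by
      show M.symm (M t) ∈ A ↔ t ∈ A
      rw [Equiv.symm_apply_apply]
    simp only [h3]
  have h3 : ∑ t, (if k (Sum.inl t) = true ∧ Free M A (Sum.inl t) then 1 else 0) =
      ∑ t, (if k (Sum.inl t) = true ∧ t ∈ A then 1 else 0) := rfl
  rw [h2, h3, ← Finset.sum_add_distrib]
  have htot := up_total mu hinv M k hk
  have h4 : ∀ t, ((if k (Sum.inl t) = true then 1 else 0) +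
      (if k (Sum.inr (M t)) = true then 1 else 0)) =
      ((if k (Sum.inl t) = true ∧ t ∈ A then 1 else 0) +
        (if k (Sum.inr (M t)) = true ∧ t ∈ A then 1 else 0)) + (if t ∈ A then 0 else 1) := by
    intro t
    by_cases ht : t ∈ A
    · simp only [ht, and_true, if_true, add_zero]
    · simp only [ht, and_false, if_false, zero_add]
      rw [hF t ht]
      cases k (Sum.inl t) <;> simp
  rw [Finset.sum_congr rfl fun t _ => h4 t, Finset.sum_add_distrib] at htot
  have h5 : ∑ t, (if t ∈ A then 0 else 1) + A.card = Fintype.card T := by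
    have h6 : ∑ t : T, (if t ∈ A then 1 else 0) = A.card := by
      rw [Finset.sum_ite_mem, Finset.univ_inter, Finset.sum_const, smul_eq_mul, mul_one]
    rw [← h6, ← Finset.sum_add_distrib]
    have h7 : ∀ t : T, (if t ∈ A then 0 else 1) + (if t ∈ A then 1 else 0) = 1 := by
      intro t
      by_cases ht : t ∈ A <;> simp [ht]
    rw [Finset.sum_congr rfl fun t _ => h7 t, Finset.sum_const, Finset.card_univ, smul_eq_mul,
      mul_one]
  omega

private theorem up_sub (A : Finset T) (F : {t // t ∈ A} → ℝ) :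
    ∑ t : T, (if h : t ∈ A then F ⟨t, h⟩ else 0) ^ 2 = ∑ t, F t ^ 2 := by
  have h1 : ∑ t : T, (if h : t ∈ A then F ⟨t, h⟩ else 0) ^ 2 =
      ∑ t ∈ A, (if h : t ∈ A then F ⟨t, h⟩ else 0) ^ 2 := by
    symm
    refine Finset.sum_subset (Finset.subset_univ A) fun t _ ht => ?_
    rw [dif_neg ht]
    ring
  rw [h1, ← Finset.sum_coe_sort A]
  refine Finset.sum_congr rfl fun t _ => ?_
  rw [dif_pos t.2]

private theorem up_row (M : T ≃ W) (A : Finset T) (Y : {t // t ∈ A} → {t // t ∈ A} → ℝ) (t : T)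
    (ht : t ∈ A) : ∑ w, ext M A Y t w ^ 2 = ∑ t', Y ⟨t, ht⟩ t' ^ 2 := by
  have h1 : ∀ w, ext M A Y t w ^ 2 =
      (if h : M.symm w ∈ A then Y ⟨t, ht⟩ ⟨M.symm w, h⟩ else 0) ^ 2 := by
    intro w
    simp only [ext, dif_pos ht]
  rw [Finset.sum_congr rfl fun w _ => h1 w,
    Equiv.sum_comp M.symm (fun t' => (if h : t' ∈ A then Y ⟨t, ht⟩ ⟨t', h⟩ else 0) ^ 2)]
  exact up_sub A (fun t' => Y ⟨t, ht⟩ t')

private theorem up_row' (M : T ≃ W) (A : Finset T) (Y : {t // t ∈ A} → {t // t ∈ A} → ℝ) (t : T)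
    (ht : t ∉ A) : ∑ w, ext M A Y t w ^ 2 = 1 := by
  have h1 : ∀ w, ext M A Y t w ^ 2 = if w = M t then 1 else 0 := by
    intro w
    simp only [ext, dif_neg ht]
    by_cases hw : w = M t <;> simp [hw]
  rw [Finset.sum_congr rfl fun w _ => h1 w, Finset.sum_ite_eq', if_pos (Finset.mem_univ _)]

private theorem up_col (M : T ≃ W) (A : Finset T) (Y : {t // t ∈ A} → {t // t ∈ A} → ℝ) (w : W)
    (hw : M.symm w ∈ A) : ∑ t, ext M A Y t w ^ 2 = ∑ t', Y t' ⟨M.symm w, hw⟩ ^ 2 := by
  have h1 : ∀ t, ext M A Y t w ^ 2 =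
      (if h : t ∈ A then Y ⟨t, h⟩ ⟨M.symm w, hw⟩ else 0) ^ 2 := by
    intro t
    by_cases ht : t ∈ A
    · simp only [ext, dif_pos ht, dif_pos hw]
    · simp only [ext, dif_neg ht]
      rw [if_neg]
      intro h0
      rw [h0, Equiv.symm_apply_apply] at hw
      exact ht hw
  rw [Finset.sum_congr rfl fun t _ => h1 t]
  exact up_sub A (fun t' => Y t' ⟨M.symm w, hw⟩)

private theorem up_col' (M : T ≃ W) (A : Finset T) (Y : {t // t ∈ A} → {t // t ∈ A} → ℝ) (w : W)
    (hw : M.symm w ∉ A) : ∑ t, ext M A Y t w ^ 2 = 1 := by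
  have h1 : ∀ t, ext M A Y t w ^ 2 = if t = M.symm w then 1 else 0 := by
    intro t
    by_cases ht : t ∈ A
    · simp only [ext, dif_pos ht, dif_neg hw]
      rw [if_neg]
      · ring
      · intro h0
        rw [← h0] at hw
        exact hw ht
    · simp only [ext, dif_neg ht]
      by_cases h2 : w = M t
      · rw [if_pos h2, if_pos]
        · ring
        · rw [h2, Equiv.symm_apply_apply]
      · rw [if_neg h2, if_neg]
        · ring
        · intro h3
          rw [h3, Equiv.apply_symm_apply] at h2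
          exact h2 rfl
  rw [Finset.sum_congr rfl fun t _ => h1 t, Finset.sum_ite_eq', if_pos (Finset.mem_univ _)]

private theorem up_sq {m : Type*} [Fintype m] (y : m → ℝ) (e : ℝ) (h0 : ∀ i, 0 ≤ y i)
    (h1 : ∀ i, y i ≤ e) (hs : ∑ i, y i = 1) : ∑ i, y i ^ 2 ≤ e := by
  calc ∑ i, y i ^ 2 ≤ ∑ i, e * y i := by
        refine Finset.sum_le_sum fun i _ => ?_
        rw [pow_two]
        exact mul_le_mul_of_nonneg_right (h1 i) (h0 i)
    _ = e := by rw [← Finset.mul_sum, hs, mul_one]

private theorem up_colsum (mu : T ⊕ W → T ⊕ W) (hinv : ∀ a, mu (mu a) = a) (k : T ⊕ W → Bool)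
    (X : T → W → ℝ) (b : Out k) :
    ∑ a, Amat mu k X a b ^ 2 ≤ ∑ x, wt X b.1 x ^ 2 := by
  classical
  have h1 : ∑ a, Amat mu k X a b ^ 2 =
      ∑ x ∈ Finset.univ.image (fun a : Out k => mu a.1), wt X b.1 x ^ 2 := by
    rw [Finset.sum_image]
    · rfl
    · intro a _ a' _ h
      have h2 := congrArg mu h
      simp only [hinv] at h2
      exact Subtype.ext h2
  rw [h1]
  exact Finset.sum_le_sum_of_subset_of_nonneg (Finset.subset_univ _) fun _ _ _ => sq_nonneg _

theorem up_bound (mu : T ⊕ W → T ⊕ W) (N : T → Finset W) (h : AH mu N) (M : T ≃ W)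
    (hM : ∀ t, M t ∈ N t) (A : Finset T) (Y : {t // t ∈ A} → {t // t ∈ A} → ℝ) (e : ℝ)
    (he : 0 ≤ e) (hY : ∀ t t', 0 ≤ Y t t') (hS : ∀ t t', Y t t' ≠ 0 → M t'.1 ∈ N t.1)
    (hr : ∀ t, ∑ t', Y t t' = 1) (hc : ∀ t', ∑ t, Y t t' = 1) (hle : ∀ t t', Y t t' ≤ e)
    (k : T ⊕ W → Bool) (hk : ∀ a, k (mu a) = !k a)
    (hF : ∀ t, t ∉ A → k (Sum.inr (M t)) = !k (Sum.inl t)) :
    (Amat mu k (ext M A Y)).permanent ≤ Real.sqrt e ^ A.card := by
  classical
  have hX : ∀ t w, 0 ≤ ext M A Y t w := by
    intro t w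
    unfold ext
    by_cases ht : t ∈ A
    · rw [dif_pos ht]
      by_cases hw : M.symm w ∈ A
      · rw [dif_pos hw]
        exact hY _ _
      · rw [dif_neg hw]
    · rw [dif_neg ht]
      by_cases hw : w = M t
      · rw [if_pos hw]
        exact zero_le_one
      · rw [if_neg hw]
  have hN : ∀ t w, ext M A Y t w ≠ 0 → w ∈ N t := by
    intro t w h0
    unfold ext at h0
    by_cases ht : t ∈ A
    · rw [dif_pos ht] at h0
      by_cases hw : M.symm w ∈ A
      · rw [dif_pos hw] at h0
        have h1 := hS _ _ h0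
        simp only [Equiv.apply_symm_apply] at h1
        exact h1
      · rw [dif_neg hw] at h0
        exact absurd rfl h0
    · rw [dif_neg ht] at h0
      by_cases hw : w = M t
      · rw [hw]
        exact hM t
      · rw [if_neg hw] at h0
        exact absurd rfl h0
  rw [perm_eq_abs_det mu N h k hk _ hX hN]
  have hse : Real.sqrt e ^ 2 = e := Real.sq_sqrt he
  refine (hadamard _ (fun b : Out k => if Free M A b.1 then Real.sqrt e else 1) ?_ ?_).trans ?_
  · intro b
    by_cases hb : Free M A b.1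
    · simp only [if_pos hb]
      exact Real.sqrt_nonneg e
    · simp only [if_neg hb]
      exact zero_le_one
  · intro b
    refine (up_colsum mu h.inv k _ b).trans ?_
    rw [Fintype.sum_sum_type]
    obtain ⟨b, hb⟩ := b
    rcases b with t | w
    · simp only [wt]
      rw [Finset.sum_congr rfl fun (_ : T) _ => (by ring : (0:ℝ) ^ 2 = 0), Finset.sum_const_zero,
        zero_add]
      by_cases ht : t ∈ A
      · have h1 : Free M A (Sum.inl t) := ht
        rw [if_pos h1, hse, up_row M A Y t ht]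
        exact up_sq _ e (fun _ => hY _ _) (fun _ => hle _ _) (hr _)
      · have h1 : ¬ Free M A (Sum.inl t) := ht
        rw [if_neg h1, up_row' M A Y t ht]
        norm_num
    · simp only [wt]
      rw [Finset.sum_congr rfl fun (_ : W) _ => (by ring : (0:ℝ) ^ 2 = 0), Finset.sum_const_zero,
        add_zero]
      by_cases hw : M.symm w ∈ A
      · have h1 : Free M A (Sum.inr w) := hw
        rw [if_pos h1, hse, up_col M A Y w hw]
        exact up_sq _ e (fun _ => hY _ _) (fun _ => hle _ _) (hc _)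
      · have h1 : ¬ Free M A (Sum.inr w) := hw
        rw [if_neg h1, up_col' M A Y w hw]
        norm_num
  · rw [Finset.prod_ite, Finset.prod_const, Finset.prod_const_one, mul_one,
      up_card mu h.inv M A k hk hF]

end Pool.Agent.H3.K1
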