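import Pool.Agent.H3.K1.VdW
import Pool.Agent.H3.K1.Cnt
import Pool.Agent.H3.K1.Low
import Pool.Agent.H3.K1.Up

/-!
# Spread systems are impossible

PROOF. Let `n = |A| ≥ 1`. `vdw` for the matrix `Y` on `A` (transpose if necessary,
`Matrix.permanent = ∑ σ ∏ M (σ i) i`, `Matrix.permanent_transpose`):
`exp(-n) ≤ ∑_p ∏ Y t (p t)`. `low_two`, `up_zero` (orientations outside `Fro`), `up_bound`,
`card_Fro_le`: `2 exp(-n) ≤ 2^(n+1) (sqrt e)^n`, i.e. `exp(-1)^n ≤ (2 sqrt e)^n`. With `e = 1/30`: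
`2 sqrt e < exp(-1)`, because `4/30 < exp(-2)`, i.e. `exp 2 < 7.5` (`Real.exp_one_lt_d9`).
Contradiction.
-/

namespace Pool.Agent.H3.K1

open Finset

variable {T W : Type*} [Fintype T] [Fintype W] [DecidableEq T] [DecidableEq W]

theorem not_spread (mu : T ⊕ W → T ⊕ W) (N : T → Finset W) (h : AH mu N) (M : T ≃ W)
    (hM : ∀ t, M t ∈ N t) (A : Finset T) (hA : A.Nonempty)
    (Y : {t // t ∈ A} → {t // t ∈ A} → ℝ)
    (hY : ∀ t t', 0 ≤ Y t t') (hS : ∀ t t', Y t t' ≠ 0 → M t'.1 ∈ N t.1)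
    (hr : ∀ t, ∑ t', Y t t' = 1) (hc : ∀ t', ∑ t, Y t t' = 1) (hle : ∀ t t', Y t t' ≤ 1 / 30) :
    False := by
  classical
  have hTne : Nonempty T := ⟨hA.choose⟩
  have hAne : Nonempty {t // t ∈ A} := ⟨⟨hA.choose, hA.choose_spec⟩⟩
  have h1 : Real.exp (-(Fintype.card {t // t ∈ A} : ℝ)) ≤
      Matrix.permanent (fun i j : {t // t ∈ A} => Y j i) :=
    vdw (fun i j : {t // t ∈ A} => Y j i) (fun i j => hY j i) (fun i => hc i) (fun j => hr j)
  have h2 : Matrix.permanent (fun i j : {t // t ∈ A} => Y j i) =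
      ∑ p : Equiv.Perm {t // t ∈ A}, ∏ t, Y t (p t) := rfl
  rw [h2, Fintype.card_coe] at h1
  have h3 := low_two mu N h M hM A Y hY hS
  have h4 : ∑ k ∈ Adm mu, (Amat mu k (ext M A Y)).permanent =
      ∑ k ∈ Fro mu M A, (Amat mu k (ext M A Y)).permanent := by
    unfold Fro
    rw [Finset.sum_filter]
    refine Finset.sum_congr rfl fun k hk => ?_
    rw [Adm, Finset.mem_filter] at hk
    split_ifs with hF
    · rfl
    · exact up_zero mu h.inv M A Y k hk.2 hF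
  have h5 : ∑ k ∈ Fro mu M A, (Amat mu k (ext M A Y)).permanent ≤
      (Fro mu M A).card • (Real.sqrt (1 / 30) ^ A.card) := by
    refine Finset.sum_le_card_nsmul _ _ _ fun k hk => ?_
    rw [Fro, Finset.mem_filter, Adm, Finset.mem_filter] at hk
    exact up_bound mu N h M hM A Y (1 / 30) (by norm_num) hY hS hr hc hle k hk.1.2 hk.2
  have h6 : ((Fro mu M A).card : ℝ) ≤ 2 ^ (A.card + 1) := by
    exact_mod_cast card_Fro_le mu M (h.conn M hM) A
  have h7 : (0 : ℝ) ≤ Real.sqrt (1 / 30) ^ A.card := pow_nonneg (Real.sqrt_nonneg _) _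
  have h8 : 2 * Real.exp (-(A.card : ℝ)) ≤ 2 * (2 * Real.sqrt (1 / 30)) ^ A.card := by
    calc 2 * Real.exp (-(A.card : ℝ)) ≤ 2 * ∑ p : Equiv.Perm {t // t ∈ A}, ∏ t, Y t (p t) := by
          linarith
      _ ≤ ∑ k ∈ Fro mu M A, (Amat mu k (ext M A Y)).permanent := h4 ▸ h3
      _ ≤ ((Fro mu M A).card : ℝ) * Real.sqrt (1 / 30) ^ A.card := by
          rw [nsmul_eq_mul] at h5
          exact h5
      _ ≤ 2 ^ (A.card + 1) * Real.sqrt (1 / 30) ^ A.card := mul_le_mul_of_nonneg_right h6 h7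
      _ = 2 * (2 * Real.sqrt (1 / 30)) ^ A.card := by rw [pow_succ, mul_pow]; ring
  have h9 : Real.exp (-(A.card : ℝ)) = Real.exp (-1) ^ A.card := by
    rw [← Real.exp_nat_mul]
    congr 1
    ring
  have h10 : 2 * Real.sqrt (1 / 30) < Real.exp (-1) := by
    have ha : (0 : ℝ) ≤ 2 * Real.sqrt (1 / 30) := by positivity
    have hb : (2 * Real.sqrt (1 / 30)) ^ 2 < Real.exp (-1) ^ 2 := by
      have hs : Real.sqrt (1 / 30) ^ 2 = 1 / 30 := Real.sq_sqrt (by norm_num)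
      rw [mul_pow, hs]
      have he := Real.exp_one_lt_d9
      have he0 := Real.exp_pos 1
      have h11 : Real.exp (-1) * Real.exp 1 = 1 := by
        rw [← Real.exp_add]
        simp
      have h12 : Real.exp 1 ^ 2 < 7.5 := by nlinarith
      have h13 : Real.exp (-1) ^ 2 * Real.exp 1 ^ 2 = 1 := by rw [← mul_pow, h11, one_pow]
      have h14 : 0 < Real.exp (-1) ^ 2 := by positivity
      by_contra hcon
      push Not at hcon
      have h15 : Real.exp (-1) ^ 2 * Real.exp 1 ^ 2 ≤ (2 ^ 2 * (1 / 30)) * Real.exp 1 ^ 2 :=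
        mul_le_mul_of_nonneg_right hcon (by positivity)
      rw [h13] at h15
      linarith
    exact lt_of_pow_lt_pow_left₀ 2 (Real.exp_pos _).le hb
  have h11 : (2 * Real.sqrt (1 / 30)) ^ A.card < Real.exp (-1) ^ A.card :=
    pow_lt_pow_left₀ h10 (by positivity) (Finset.card_pos.mpr hA).ne'
  rw [h9] at h8
  linarith

end Pool.Agent.H3.K1
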