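import Pool.Agent.H3.K1.Defs

/-!
# A nonzero term of the matrix of an orientation is a placement

PROOF of `exists_place`. `q : Out k → T ⊕ W`, `q a = mu (p a)`, takes values in `{k = false}` (since
`k (mu x) = !k x`) and is a bijection `Out k → {k = false}`. By the nonzero product
`wt X a (q a) ≠ 0` for all `a`, so `a`, `q a` are a token and a slot `t, w` (in some order) with
`X t w ≠ 0`. Define `s t = w` where: if `k (inl t) = true` then `q (inl t) = inr w`; if
`k (inl t) = false` then `inl t = q (inr w)` for the unique `inr w ∈ Out k`. Similarly the inverse.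
-/

namespace Pool.Agent.H3.K1

open Finset

variable {T W : Type*} [Fintype T] [Fintype W] [DecidableEq T] [DecidableEq W]

theorem exists_place (mu : T ⊕ W → T ⊕ W) (hinv : ∀ a, mu (mu a) = a) (k : T ⊕ W → Bool)
    (hk : ∀ a, k (mu a) = !k a) (X : T → W → ℝ) (p : Equiv.Perm (Out k))
    (hp : ∏ a : Out k, wt X a.1 (mu (p a).1) ≠ 0) :
    ∃ s : T ≃ W, (∀ t, X t (s t) ≠ 0) ∧ (∀ a : Out k, mu (p a).1 = hat s a.1) ∧
      ∀ a, k (hat s a) = !k a := by
  classical
  have hk' : ∀ a, k a = false → k (mu a) = true := by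
    intro a ha
    rw [hk, ha]
    rfl
  let g : T ⊕ W → T ⊕ W := fun a =>
    if h : k a = true then mu (p ⟨a, h⟩).1
    else (p.symm ⟨mu a, hk' a (by simpa using h)⟩).1
  have hgt : ∀ (a : T ⊕ W) (h : k a = true), g a = mu (p ⟨a, h⟩).1 := by
    intro a h
    simp only [g, h, dif_pos]
  have hgf : ∀ (a : T ⊕ W) (h : k a = false), g a = (p.symm ⟨mu a, hk' a h⟩).1 := by
    intro a h
    simp only [g]
    rw [dif_neg (by simp [h])]
  have hkg : ∀ a, k (g a) = !k a := by
    intro a
    cases h : k a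
    · rw [hgf a h]
      exact (p.symm ⟨mu a, hk' a h⟩).2
    · rw [hgt a h, hk, (p ⟨a, h⟩).2]
  have hgg : ∀ a, g (g a) = a := by
    intro a
    cases h : k a
    · have h1 : k (g a) = true := by rw [hkg, h]; rfl
      rw [hgt (g a) h1]
      have h2 : (⟨g a, h1⟩ : Out k) = p.symm ⟨mu a, hk' a h⟩ := Subtype.ext (hgf a h)
      rw [h2, Equiv.apply_symm_apply, hinv]
    · have h1 : k (g a) = false := by rw [hkg, h]; rfl
      rw [hgf (g a) h1]
      have h2 : (⟨mu (g a), hk' (g a) h1⟩ : Out k) = p ⟨a, h⟩ := by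
        apply Subtype.ext
        change mu (g a) = (p ⟨a, h⟩).1
        rw [hgt a h, hinv]
      rw [h2, Equiv.symm_apply_apply]
  have hsym : ∀ a b : T ⊕ W, wt X a b = wt X b a := by
    intro a b
    rcases a with t | w <;> rcases b with t' | w' <;> rfl
  have hw1 : ∀ a, k a = true → wt X a (g a) ≠ 0 := by
    intro a h
    have h3 := Finset.prod_ne_zero_iff.mp hp ⟨a, h⟩ (Finset.mem_univ _)
    rw [hgt a h]
    exact h3
  have hw : ∀ a, wt X a (g a) ≠ 0 := by
    intro a
    cases h : k a
    · have h1 : k (g a) = true := by rw [hkg, h]; rfl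
      have h3 := hw1 (g a) h1
      rw [hgg a, hsym] at h3
      exact h3
    · exact hw1 a h
  have hT : ∀ t : T, ∃ w : W, g (Sum.inl t) = Sum.inr w ∧ X t w ≠ 0 := by
    intro t
    have h := hw (Sum.inl t)
    rcases h1 : g (Sum.inl t) with t' | w
    · rw [h1] at h
      exact absurd rfl h
    · rw [h1] at h
      exact ⟨w, rfl, h⟩
  have hW : ∀ w : W, ∃ t : T, g (Sum.inr w) = Sum.inl t := by
    intro w
    have h := hw (Sum.inr w)
    rcases h1 : g (Sum.inr w) with t | w'
    · exact ⟨t, rfl⟩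
    · rw [h1] at h
      exact absurd rfl h
  choose f hf hfX using hT
  choose f' hf' using hW
  have hl : Function.LeftInverse f' f := by
    intro t
    have h1 := hgg (Sum.inl t)
    rw [hf t, hf' (f t)] at h1
    exact Sum.inl.inj h1
  have hr : Function.RightInverse f' f := by
    intro w
    have h1 := hgg (Sum.inr w)
    rw [hf' w, hf (f' w)] at h1
    exact Sum.inr.inj h1
  have hhat : ∀ a, hat (⟨f, f', hl, hr⟩ : T ≃ W) a = g a := by
    intro a
    rcases a with t | w
    · rw [hf t]
      rfl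
    · rw [hf' w]
      rfl
  refine ⟨⟨f, f', hl, hr⟩, fun t => hfX t, ?_, ?_⟩
  · intro a
    rw [hhat, hgt a.1 a.2]
  · intro a
    rw [hhat, hkg]

end Pool.Agent.H3.K1
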