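import Pool.Agent.H3.K1.NV

/-!
# Real roots and the AM-GM inequality

PROOF. `P` = polynomial of `Dm_poly` over `ℂ` for `S, a, v` (`v` real positive), `m = |S| ≥ 1`,
degree `m` as in `NV`. ROOTS ARE REAL AND NEGATIVE: let `ζ` be a root. If `ζ` is not a real `≤ 0`
there is `u : ℂ` with `0 < u.re` and `0 < (u * ζ).re`
(for `Im ζ > 0` or `Im ζ < 0` or `ζ > 0` real: take `u = 1 + conj ζ * s`, or `u = conj (sqrt ζ)`
with `u * ζ = |ζ| sqrt ζ`, `Complex` principal square root, or `u = |ζ| + conj ζ`: then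
`u.re = |ζ| + Re ζ > 0`, `(u ζ).re = |ζ| Re ζ + |ζ|^2 = |ζ| (Re ζ + |ζ|) > 0`; this last choice
works for every `ζ` outside `(-∞,0]`). Then all `u * (v i + ζ * a i k)` have positive real part, so
`0 ≠ Dm S a (u (v + ζ a_k)) = u^m Dm S a (v + ζ a_k)` (`Dm_ne_zero`, `Dm_smul`), contradiction.
`ζ = 0` is excluded by `P(0) = Dm S a v > 0`. So `P = C c ∏ (X + r_i)`, `r_i > 0`, `m` factors,
`P(t)/P(0) = ∏ (1 + t/r_i) ≤ (1 + (t/m) ∑ 1/r_i)^m` (AM-GM) and `∑ 1/r_i = P'(0)/P(0) =
m * Dm (S.erase k) a v / Dm S a v`.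
-/

namespace Pool.Agent.H3.K1

open Finset

variable {n : Type*} [Fintype n] [DecidableEq n]

private theorem rr_amgm (s : Multiset ℝ) (hs : ∀ x ∈ s, 0 < x) (t : ℝ) (ht : 0 ≤ t) (A : ℝ)
    (hA : 0 < A) : (s.map fun x => 1 + t * x).prod ≤
      A ^ s.card * Real.exp ((s.map fun x => (1 + t * x) / A - 1).sum) := by
  induction s using Multiset.induction with
  | empty => simp
  | cons x s ih =>
    have h1 := ih fun y hy => hs y (Multiset.mem_cons_of_mem hy)
    have hx := hs x (Multiset.mem_cons_self x s)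
    rw [Multiset.map_cons, Multiset.prod_cons, Multiset.map_cons, Multiset.sum_cons,
      Multiset.card_cons, Real.exp_add, pow_succ]
    have h2 : 1 + t * x ≤ A * Real.exp ((1 + t * x) / A - 1) := by
      have e1 := Real.add_one_le_exp ((1 + t * x) / A - 1)
      have e2 : (1 + t * x) = A * ((1 + t * x) / A) := by field_simp
      rw [e2]
      have e3 : A * ((1 + t * x) / A) / A = (1 + t * x) / A := by field_simp
      rw [e3]
      exact mul_le_mul_of_nonneg_left (by linarith) hA.le
    have h3 : 0 ≤ (s.map fun x => 1 + t * x).prod := by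
      refine Multiset.prod_nonneg fun y hy => ?_
      obtain ⟨z, hz, rfl⟩ := Multiset.mem_map.1 hy
      have := hs z (Multiset.mem_cons_of_mem hz)
      positivity
    calc (1 + t * x) * (s.map fun x => 1 + t * x).prod ≤
        (A * Real.exp ((1 + t * x) / A - 1)) *
          (A ^ s.card * Real.exp ((s.map fun x => (1 + t * x) / A - 1).sum)) :=
          mul_le_mul h2 h1 h3 (by positivity)
      _ = _ := by ring

private theorem rr_sum (s : Multiset ℝ) (t A : ℝ) :
    (s.map fun x => (1 + t * x) / A - 1).sum = (s.card + t * s.sum) / A - s.card := by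
  induction s using Multiset.induction with
  | empty => simp
  | cons x s ih =>
    rw [Multiset.map_cons, Multiset.sum_cons, Multiset.card_cons, Multiset.sum_cons, ih]
    push_cast
    ring

private theorem rr_prod (s : Multiset ℝ) (hs : ∀ x ∈ s, 0 < x) (hne : s ≠ 0) (t : ℝ)
    (ht : 0 ≤ t) : (s.map fun x => 1 + t * x).prod ≤ (1 + t * (s.sum / s.card)) ^ s.card := by
  have hsum : 0 ≤ s.sum := Multiset.sum_nonneg fun x hx => (hs x hx).le
  have hcard : (0 : ℝ) < s.card := by
    have : 0 < s.card := Multiset.card_pos.2 hne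
    exact_mod_cast this
  obtain ⟨A, hA⟩ : ∃ A : ℝ, A = 1 + t * (s.sum / s.card) := ⟨_, rfl⟩
  have hA0 : 0 < A := by
    rw [hA]
    positivity
  have h1 := rr_amgm s hs t ht A hA0
  have h2 : (s.card + t * s.sum) / A - s.card = 0 := by
    have e1 : s.card + t * s.sum = A * s.card := by
      rw [hA]
      field_simp
    rw [e1]
    field_simp
    ring
  rw [rr_sum, h2, Real.exp_zero, mul_one] at h1
  rw [← hA]
  exact h1

private theorem rr_real {z : ℂ} (hz : ¬ (z.im = 0 ∧ z.re ≤ 0)) : 0 < ‖z‖ + z.re := by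
  have h1 : |z.re| ≤ ‖z‖ := Complex.abs_re_le_norm z
  have h2 := neg_abs_le z.re
  by_contra hc
  push Not at hc
  have h3 : z.re ≤ 0 := by
    have := norm_nonneg z
    linarith
  have h4 : ‖z‖ = -z.re := by
    rw [abs_of_nonpos h3] at h1
    linarith
  have h5 : ‖z‖ ^ 2 = z.re ^ 2 + z.im ^ 2 := by
    rw [Complex.sq_norm, Complex.normSq_apply]
    ring
  rw [h4] at h5
  have h6 : z.im ^ 2 = 0 := by linarith [neg_sq z.re]
  exact hz ⟨pow_eq_zero_iff two_ne_zero |>.1 h6, h3⟩

theorem Dm_le (a : Matrix n n ℝ) (ha : ∀ i j, 0 < a i j) (S : Finset n) (v : n → ℝ)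
    (hv : ∀ i, 0 < v i) (k : n) (hk : k ∈ S) (t : ℝ) (ht : 0 ≤ t) :
    Dm S a (fun i => v i + t * a i k) ≤
      Dm S a v * (1 + t * (Dm (S.erase k) a v / Dm S a v)) ^ S.card := by
  obtain ⟨P, hdeg, hev, hlead, hc0, hc1⟩ :=
    Dm_poly S (fun i j => (a i j : ℂ)) (fun i => (v i : ℂ)) k hk
  have hm : 0 < S.card := Finset.card_pos.mpr ⟨k, hk⟩
  have hS0 : 0 < Dm S a v := Dm_pos S a v ha hv
  have hl : P.coeff S.card ≠ 0 := by
    rw [hlead, Dm_map S a (fun i => a i k)]
    have h2 := Dm_pos S a (fun i => a i k) ha (fun i => ha i k)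
    exact_mod_cast h2.ne'
  have hP0 : P ≠ 0 := by
    rintro rfl
    simp at hl
  have hnd : P.natDegree = S.card := le_antisymm hdeg (Polynomial.le_natDegree_of_ne_zero hl)
  have hP00 : P.eval 0 = ((Dm S a v : ℝ) : ℂ) := by
    rw [← Polynomial.coeff_zero_eq_eval_zero, hc0, Dm_map]
  have hP00' : P.eval 0 ≠ 0 := by
    rw [hP00]
    exact_mod_cast hS0.ne'
  -- the roots are real and negative
  have hroots : ∀ z ∈ P.roots, z.im = 0 ∧ z.re < 0 := by
    intro z hz
    have h1 : P.eval z = 0 := (Polynomial.mem_roots hP0).mp hz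
    have hz0 : z ≠ 0 := by
      rintro rfl
      exact hP00' h1
    by_cases hcon : z.im = 0 ∧ z.re ≤ 0
    · refine ⟨hcon.1, lt_of_le_of_ne hcon.2 fun h2 => hz0 ?_⟩
      exact Complex.ext h2 hcon.1
    · exfalso
      have h3 := rr_real hcon
      have hzn : 0 < ‖z‖ := norm_pos_iff.2 hz0
      obtain ⟨u, hu⟩ : ∃ u : ℂ, u = ((‖z‖ : ℝ) : ℂ) + (starRingEnd ℂ) z := ⟨_, rfl⟩
      have hur : u.re = ‖z‖ + z.re := by
        rw [hu]
        simp
      have huz : (u * z).re = ‖z‖ * (‖z‖ + z.re) := by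
        have e1 : u * z = ((‖z‖ : ℝ) : ℂ) * z + ((‖z‖ ^ 2 : ℝ) : ℂ) := by
          rw [hu, add_mul, Complex.conj_mul']
          push_cast
          ring
        rw [e1, Complex.add_re, Complex.re_ofReal_mul, Complex.ofReal_re]
        ring
      have h4 := Dm_ne_zero a ha S (fun i => u * ((v i : ℂ) + z * (a i k : ℂ))) (fun i => by
        have e1 : u * ((v i : ℂ) + z * (a i k : ℂ)) = ((v i : ℝ) : ℂ) * u +
            ((a i k : ℝ) : ℂ) * (u * z) := by ring
        rw [e1, Complex.add_re, Complex.re_ofReal_mul, Complex.re_ofReal_mul, hur, huz]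
        have e2 := mul_pos (hv i) h3
        have e3 := mul_pos (ha i k) (mul_pos hzn h3)
        linarith)
      rw [Dm_smul, ← hev, h1, mul_zero] at h4
      exact h4 rfl
  have hsp := IsAlgClosed.splits P
  have hcardr : P.roots.card = S.card := by rw [← hsp.natDegree_eq_card_roots, hnd]
  obtain ⟨s, hs⟩ : ∃ s : Multiset ℝ, s = P.roots.map (fun z => (-z.re)⁻¹) := ⟨_, rfl⟩
  have hscard : s.card = S.card := by rw [hs, Multiset.card_map, hcardr]
  have hspos : ∀ x ∈ s, 0 < x := by
    intro x hx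
    rw [hs] at hx
    obtain ⟨z, hz, rfl⟩ := Multiset.mem_map.1 hx
    have := (hroots z hz).2
    exact inv_pos.2 (by linarith)
  have hsne : s ≠ 0 := by
    rw [← Multiset.card_pos, hscard]
    exact hm
  have hzr : ∀ z ∈ P.roots, z = ((z.re : ℝ) : ℂ) := fun z hz =>
    Complex.ext rfl (by rw [(hroots z hz).1]; simp)
  -- the sum
  have hsum : s.sum / s.card = Dm (S.erase k) a v / Dm S a v := by
    have h1 := hsp.eval_derivative_div_eval_of_ne_zero hP00'
    have h5 : (Polynomial.derivative P).eval 0 = ((S.card * Dm (S.erase k) a v : ℝ) : ℂ) := by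
      rw [← Polynomial.coeff_zero_eq_eval_zero, Polynomial.coeff_derivative]
      simp only [zero_add, Nat.cast_zero, mul_one]
      rw [hc1, Dm_map]
      push_cast
      ring
    rw [h5, hP00] at h1
    have h6 : (P.roots.map fun z => 1 / (0 - z)).sum = ((s.sum : ℝ) : ℂ) := by
      have e0 : ((s.sum : ℝ) : ℂ) = (s.map fun x : ℝ => (x : ℂ)).sum :=
        map_multiset_sum Complex.ofRealHom s
      rw [e0, hs, Multiset.map_map]
      congr 1
      refine Multiset.map_congr rfl fun z hz => ?_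
      rw [Function.comp_apply]
      conv_lhs => rw [hzr z hz]
      push_cast
      rw [one_div, zero_sub]
    rw [h6] at h1
    have h7 : S.card * Dm (S.erase k) a v / Dm S a v = s.sum := by
      have h8 : ((S.card * Dm (S.erase k) a v / Dm S a v : ℝ) : ℂ) = ((s.sum : ℝ) : ℂ) := by
        rw [← h1]
        push_cast
        rfl
      exact_mod_cast h8
    rw [← h7, hscard]
    have hmR : (0 : ℝ) < S.card := by exact_mod_cast hm
    field_simp
  -- the product
  have hprod : Dm S a (fun i => v i + t * a i k) = Dm S a v * (s.map fun x => 1 + t * x).prod := by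
    have h1 : P.eval (t : ℂ) = P.eval 0 * (P.roots.map fun z => 1 + (t : ℂ) * (-z)⁻¹).prod := by
      rw [hsp.eval_eq_prod_roots, hsp.eval_eq_prod_roots, mul_assoc, ← Multiset.prod_map_mul]
      congr 2
      refine Multiset.map_congr rfl fun z hz => ?_
      have hz0 : z ≠ 0 := by
        rintro rfl
        have := (hroots 0 hz).2
        simp at this
      field_simp
      ring
    have h2 : P.eval (t : ℂ) = ((Dm S a (fun i => v i + t * a i k) : ℝ) : ℂ) := by
      rw [hev, ← Dm_map]
      congr 1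
      funext i
      push_cast
      rfl
    have h3 : (P.roots.map fun z => 1 + (t : ℂ) * (-z)⁻¹).prod =
        (((s.map fun x => 1 + t * x).prod : ℝ) : ℂ) := by
      have e0 : (((s.map fun x => 1 + t * x).prod : ℝ) : ℂ) =
          ((s.map fun x => 1 + t * x).map fun x : ℝ => (x : ℂ)).prod :=
        map_multiset_prod Complex.ofRealHom _
      rw [e0, hs, Multiset.map_map, Multiset.map_map]
      congr 1
      refine Multiset.map_congr rfl fun z hz => ?_
      rw [Function.comp_apply, Function.comp_apply]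
      conv_lhs => rw [hzr z hz]
      push_cast
      rfl
    rw [h2, hP00, h3] at h1
    exact_mod_cast h1
  have hfin := rr_prod s hspos hsne t ht
  rw [hsum, hscard] at hfin
  rw [hprod]
  exact mul_le_mul_of_nonneg_left hfin hS0.le

end Pool.Agent.H3.K1
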