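import Pool.Agent.H3.K1.Place

/-!
# All nonzero terms have the same sign

PROOF. `sign_conn`: `mu (p a) = hat s a`, i.e. `p a = mu (hat s a)` for `a ∈ Out k`. By `Conn mu s`
the permutation `p` is transitive on `Out k`: a walk from `a` to `b` (both in `Out k`) along `mu` and
`hat s`; both maps switch `k`, and one shows by induction on the walk that every end reached from
`a ∈ Out k` is `p^i a` (if `k` is true there) or `mu (p^i a)` (if `k` is false there; note
`hat s (p^i a) = mu (p^(i+1) a)` and `hat s (mu (p^i a)) = p^(i-1) a`), `i : ℤ`. So `p` is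
`IsCycleOn univ`; if `Out k` has one element then `p = 1`, `sign = 1 = -(-1)^1`; otherwise `p` is a
cycle with full support, `Equiv.Perm.IsCycle.sign : sign p = -(-1)^support.card`. In both cases
`sign p = -(-1)^(card (Out k))`.
`perm_eq_abs_det`: `Matrix.permanent` and `Matrix.det_apply` are the sums over `p` of
`∏ b, Amat (p b) b = ∏ b, wt X b (mu (p b))` and of `sign p` times it; the nonzero terms have the
common sign (by `exists_place` and `AH.conn`; `s t ∈ N t` because `X t (s t) ≠ 0`), the
terms are `≥ 0`. (If `T` is empty, `Out k` is empty and both sides are `1`.)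
-/

namespace Pool.Agent.H3.K1

open Finset

variable {T W : Type*} [Fintype T] [Fintype W] [DecidableEq T] [DecidableEq W]

private theorem same_conn (mu : T ⊕ W → T ⊕ W) (hinv : ∀ a, mu (mu a) = a) (k : T ⊕ W → Bool)
    (hk : ∀ a, k (mu a) = !k a) (s : T ≃ W) (hc : Conn mu s) (hs : ∀ a, k (hat s a) = !k a)
    (p : Equiv.Perm (Out k)) (hp : ∀ a : Out k, mu (p a).1 = hat s a.1) (a b : Out k) :
    p.SameCycle a b := by
  have hfalse : ∀ x : T ⊕ W, k x = true → k (mu x) = false := by
    intro x hx
    rw [hk, hx]
    rfl
  have main : ∀ y, Relation.ReflTransGen (fun x y => y = mu x ∨ y = hat s x) a.1 y →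
      ∀ c : Out k, (c.1 = y ∨ c.1 = mu y) → p.SameCycle a c := by
    intro y hy
    induction hy with
    | refl =>
      intro c hc1
      rcases hc1 with h | h
      · have : c = a := Subtype.ext h
        rw [this]
      · exfalso
        have h1 := c.2
        rw [h, hfalse _ a.2] at h1
        exact Bool.noConfusion h1
    | @tail x z _ hstep ih =>
      intro c hc1
      rcases hstep with h | h
      · apply ih
        rw [h, hinv] at hc1
        exact hc1.symm
      · cases hx : k x
        · have hz : k (hat s x) = true := by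
            rw [hs, hx]
            rfl
          have hd : mu (p ⟨hat s x, hz⟩).1 = x := by
            rw [hp ⟨hat s x, hz⟩, hat_hat]
          have hd' : (p ⟨hat s x, hz⟩).1 = mu x := by
            have h6 := congrArg mu hd
            rw [hinv] at h6
            exact h6
          have h2 : p.SameCycle a (p ⟨hat s x, hz⟩) := ih _ (Or.inr hd')
          have h3 : p.SameCycle a ⟨hat s x, hz⟩ := Equiv.Perm.sameCycle_apply_right.1 h2
          rcases hc1 with h4 | h4
          · have : c = ⟨hat s x, hz⟩ := Subtype.ext (h4.trans h)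
            rw [this]
            exact h3
          · exfalso
            have h1 := c.2
            rw [h4, h, hfalse _ hz] at h1
            exact Bool.noConfusion h1
        · have h2 : p.SameCycle a ⟨x, hx⟩ := ih _ (Or.inl rfl)
          have h3 : p.SameCycle a (p ⟨x, hx⟩) := Equiv.Perm.sameCycle_apply_right.2 h2
          have h5 := hp ⟨x, hx⟩
          rcases hc1 with h4 | h4
          · exfalso
            have h1 := c.2
            rw [h4, h, ← h5, hfalse _ (p ⟨x, hx⟩).2] at h1
            exact Bool.noConfusion h1
          · have : c = p ⟨x, hx⟩ := by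
              apply Subtype.ext
              rw [h4, h, ← h5, hinv]
            rw [this]
            exact h3
  exact main b.1 (hc a.1 b.1) b (Or.inl rfl)

theorem sign_conn (mu : T ⊕ W → T ⊕ W) (hinv : ∀ a, mu (mu a) = a) (k : T ⊕ W → Bool)
    (hk : ∀ a, k (mu a) = !k a) (s : T ≃ W) (hc : Conn mu s) (hs : ∀ a, k (hat s a) = !k a)
    (p : Equiv.Perm (Out k)) (hp : ∀ a : Out k, mu (p a).1 = hat s a.1)
    (hne : Nonempty (Out k)) :
    Equiv.Perm.sign p = -(-1) ^ Fintype.card (Out k) := by
  have hsame := same_conn mu hinv k hk s hc hs p hp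
  by_cases h1 : Subsingleton (Out k)
  · have hcard : Fintype.card (Out k) = 1 := by
      apply le_antisymm (Fintype.card_le_one_iff_subsingleton.2 h1)
      exact Fintype.card_pos
    have hp1 : p = 1 := Subsingleton.elim _ _
    rw [hcard, hp1]
    simp
  · have hnt : Nontrivial (Out k) := not_subsingleton_iff_nontrivial.1 h1
    have hfix : ∀ x, p x ≠ x := by
      intro x hx
      obtain ⟨y, hy⟩ := exists_ne x
      apply hy
      exact ((hsame x y).eq_of_left hx).symm
    have hcyc : p.IsCycle := by
      obtain ⟨x⟩ := hne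
      exact ⟨x, hfix x, fun y _ => hsame x y⟩
    have hsup : p.support = Finset.univ := by
      ext x
      simp [hfix x]
    rw [hcyc.sign, hsup, Finset.card_univ]

theorem perm_eq_abs_det (mu : T ⊕ W → T ⊕ W) (N : T → Finset W) (h : AH mu N)
    (k : T ⊕ W → Bool) (hk : ∀ a, k (mu a) = !k a) (X : T → W → ℝ) (hX : ∀ t w, 0 ≤ X t w)
    (hN : ∀ t w, X t w ≠ 0 → w ∈ N t) :
    (Amat mu k X).permanent = |(Amat mu k X).det| := by
  have hwt : ∀ a b : T ⊕ W, 0 ≤ wt X a b := by
    intro a b
    rcases a with t | w <;> rcases b with t' | w' <;> simp [wt, hX]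
  have hterm : ∀ σ : Equiv.Perm (Out k), 0 ≤ ∏ b, Amat mu k X (σ b) b := by
    intro σ
    exact Finset.prod_nonneg fun b _ => hwt _ _
  have hperm : 0 ≤ (Amat mu k X).permanent := by
    unfold Matrix.permanent
    exact Finset.sum_nonneg fun σ _ => hterm σ
  rcases isEmpty_or_nonempty (Out k) with he | hne
  · have h1 : (Amat mu k X).det = (Amat mu k X).permanent := by
      rw [Matrix.det_apply]
      unfold Matrix.permanent
      apply Finset.sum_congr rfl
      intro σ _
      have : σ = 1 := Subsingleton.elim _ _
      rw [this]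
      simp
    rw [h1, abs_of_nonneg hperm]
  · have h1 : (Amat mu k X).det
        = ((-(-1) ^ Fintype.card (Out k) : ℤˣ) : ℤ) * (Amat mu k X).permanent := by
      rw [Matrix.det_apply']
      unfold Matrix.permanent
      rw [Finset.mul_sum]
      apply Finset.sum_congr rfl
      intro σ _
      by_cases h0 : ∏ b, Amat mu k X (σ b) b = 0
      · rw [h0, mul_zero, mul_zero]
      · obtain ⟨s, hs1, hs2, hs3⟩ := exists_place mu h.inv k hk X σ h0
        have hc : Conn mu s := h.conn s fun t => hN t (s t) (hs1 t)
        rw [sign_conn mu h.inv k hk s hc hs3 σ hs2 hne]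
    rw [h1, abs_mul]
    have h2 : |(((-(-1) ^ Fintype.card (Out k) : ℤˣ) : ℤ) : ℝ)| = 1 := by
      rcases Int.units_eq_one_or (-(-1) ^ Fintype.card (Out k) : ℤˣ) with h3 | h3
      · rw [h3]
        simp
      · rw [h3]
        simp
    rw [h2, one_mul, abs_of_nonneg hperm]

end Pool.Agent.H3.K1
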