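import Pool.Agent.H3.K1.CapB

/-!
# A doubly stochastic matrix has permanent at least `exp (-n)`

PROOF. For `0 < δ < 1` the matrix `(1-δ) a + δ/n J` is positive and doubly stochastic, `vdw_pos`;
let `δ → 0+` (the permanent is a polynomial in the entries, so continuous;
`ge_of_tendsto` along `nhdsWithin 0 (Ioi 0)`).
-/

namespace Pool.Agent.H3.K1

open Finset

variable {n : Type*} [Fintype n] [DecidableEq n]

theorem vdw [Nonempty n] (a : Matrix n n ℝ) (ha : ∀ i j, 0 ≤ a i j)
    (hr : ∀ i, ∑ j, a i j = 1) (hc : ∀ j, ∑ i, a i j = 1) :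
    Real.exp (-(Fintype.card n : ℝ)) ≤ a.permanent := by
  have hn : (0 : ℝ) < Fintype.card n := by exact_mod_cast Fintype.card_pos
  let b : ℝ → Matrix n n ℝ := fun δ i j => (1 - δ) * a i j + δ / Fintype.card n
  have hb : ∀ δ, 0 < δ → δ < 1 → Real.exp (-(Fintype.card n : ℝ)) ≤ (b δ).permanent := by
    intro δ h0 h1
    refine vdw_pos (b δ) (fun i j => ?_) (fun i => ?_) (fun j => ?_)
    · have h2 : 0 ≤ (1 - δ) * a i j := mul_nonneg (by linarith) (ha i j)
      have h3 : 0 < δ / Fintype.card n := div_pos h0 hn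
      show 0 < (1 - δ) * a i j + δ / Fintype.card n
      linarith
    · show ∑ j, ((1 - δ) * a i j + δ / Fintype.card n) = 1
      rw [Finset.sum_add_distrib, ← Finset.mul_sum, hr i, Finset.sum_const, Finset.card_univ,
        nsmul_eq_mul]
      field_simp
      ring
    · show ∑ i, ((1 - δ) * a i j + δ / Fintype.card n) = 1
      rw [Finset.sum_add_distrib, ← Finset.mul_sum, hc j, Finset.sum_const, Finset.card_univ,
        nsmul_eq_mul]
      field_simp
      ring
  have hcont : Continuous fun δ => (b δ).permanent := by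
    unfold Matrix.permanent
    refine continuous_finsetSum _ fun σ _ => continuous_finsetProd _ fun i _ => ?_
    show Continuous fun δ : ℝ => (1 - δ) * a (σ i) i + δ / Fintype.card n
    fun_prop
  have hb0 : (b 0).permanent = a.permanent := by
    congr 1
    funext i j
    show (1 - 0) * a i j + 0 / (Fintype.card n : ℝ) = a i j
    ring
  have ht : Filter.Tendsto (fun δ => (b δ).permanent) (nhdsWithin 0 (Set.Ioi 0))
      (nhds a.permanent) := by
    rw [← hb0]
    exact (hcont.tendsto 0).mono_left nhdsWithin_le_nhds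
  refine ge_of_tendsto ht ?_
  have h1 : Set.Ioo (0 : ℝ) 1 ∈ nhdsWithin (0 : ℝ) (Set.Ioi 0) := Ioo_mem_nhdsGT zero_lt_one
  filter_upwards [h1] with δ hδ
  exact hb δ hδ.1 hδ.2

end Pool.Agent.H3.K1
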